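import Pool.Agent.Helper787.Triod.Defs
set_option autoImplicit false

namespace Pool.Agent.Helper787.Triod

open Set Topology


theorem tips_full (S : Set (Fin 3 → ℝ)) (hS : S ⊆ T3) (hc : IsPreconnected S)
    (ht : ∀ i : Fin 3, (Pi.single i (1:ℝ) : Fin 3 → ℝ) ∈ S) : S = T3 := by
  refine Set.Subset.antisymm hS fun p hp => ?_
  by_contra hpS
  by_cases hpos : ∃ i, 0 < p i
  · obtain ⟨i, hi⟩ := hpos
    have heq : ∀ q ∈ T3, q i = p i → q = p := by
      intro q hq hqi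
      funext j
      by_cases hj : j = i
      · rw [hj]; exact hqi
      · have h1 : p j = 0 := by
          rcases hp.2 i j (Ne.symm hj) with h | h
          · exact absurd h hi.ne'
          · exact h
        have h2 : q j = 0 := by
          rcases hq.2 i j (Ne.symm hj) with h | h
          · rw [hqi] at h; exact absurd h hi.ne'
          · exact h
        rw [h1, h2]
    have hU : IsOpen {q : Fin 3 → ℝ | q i < p i} := isOpen_lt (continuous_apply i) continuous_const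
    have hV : IsOpen {q : Fin 3 → ℝ | p i < q i} := isOpen_lt continuous_const (continuous_apply i)
    have hcov : S ⊆ {q : Fin 3 → ℝ | q i < p i} ∪ {q : Fin 3 → ℝ | p i < q i} := by
      intro q hq
      rcases lt_trichotomy (q i) (p i) with h | h | h
      · exact Or.inl h
      · exact absurd (heq q (hS hq) h ▸ hq) hpS
      · exact Or.inr h
    obtain ⟨j, hj⟩ : ∃ j : Fin 3, j ≠ i := exists_ne i
    have h1 : (S ∩ {q : Fin 3 → ℝ | q i < p i}).Nonempty := by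
      refine ⟨_, ht j, ?_⟩
      show (Pi.single j (1:ℝ) : Fin 3 → ℝ) i < p i
      rw [Pi.single_eq_of_ne (Ne.symm hj)]
      exact hi
    have h2 : (S ∩ {q : Fin 3 → ℝ | p i < q i}).Nonempty := by
      refine ⟨_, ht i, ?_⟩
      show p i < (Pi.single i (1:ℝ) : Fin 3 → ℝ) i
      rw [Pi.single_eq_same]
      refine lt_of_le_of_ne (hp.1 i).2 fun h => hpS ?_
      have h3 : (Pi.single i (1:ℝ) : Fin 3 → ℝ) = p :=
        heq _ (hS (ht i)) (by rw [Pi.single_eq_same, h])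
      rw [← h3]
      exact ht i
    obtain ⟨q, _, hq1, hq2⟩ := hc _ _ hU hV hcov h1 h2
    exact lt_asymm (show q i < p i from hq1) hq2
  · push Not at hpos
    have hp0 : ∀ i, p i = 0 := fun i => le_antisymm (hpos i) (hp.1 i).1
    have hU : IsOpen {q : Fin 3 → ℝ | 0 < q 0} := isOpen_lt continuous_const (continuous_apply 0)
    have hV : IsOpen ({q : Fin 3 → ℝ | 0 < q 1} ∪ {q : Fin 3 → ℝ | 0 < q 2}) :=
      (isOpen_lt continuous_const (continuous_apply 1)).union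
        (isOpen_lt continuous_const (continuous_apply 2))
    have hcov : S ⊆ {q : Fin 3 → ℝ | 0 < q 0} ∪
        ({q : Fin 3 → ℝ | 0 < q 1} ∪ {q : Fin 3 → ℝ | 0 < q 2}) := by
      intro q hq
      have hq3 := hS hq
      rcases (hq3.1 0).1.eq_or_lt with h0 | h0
      · rcases (hq3.1 1).1.eq_or_lt with h1 | h1
        · rcases (hq3.1 2).1.eq_or_lt with h2 | h2
          · exfalso
            apply hpS
            have : q = p := by
              funext i
              rw [hp0 i]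
              fin_cases i
              · exact h0.symm
              · exact h1.symm
              · exact h2.symm
            rw [← this]
            exact hq
          · exact Or.inr (Or.inr h2)
        · exact Or.inr (Or.inl h1)
      · exact Or.inl h0
    have h1 : (S ∩ {q : Fin 3 → ℝ | 0 < q 0}).Nonempty := by
      refine ⟨_, ht 0, ?_⟩
      show 0 < (Pi.single 0 (1:ℝ) : Fin 3 → ℝ) 0
      rw [Pi.single_eq_same]; exact one_pos
    have h2 : (S ∩ ({q : Fin 3 → ℝ | 0 < q 1} ∪ {q : Fin 3 → ℝ | 0 < q 2})).Nonempty := by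
      refine ⟨_, ht 1, Or.inl ?_⟩
      show 0 < (Pi.single 1 (1:ℝ) : Fin 3 → ℝ) 1
      rw [Pi.single_eq_same]; exact one_pos
    obtain ⟨q, hqS, hq1, hq2⟩ := hc _ _ hU hV hcov h1 h2
    have hq1' : 0 < q 0 := hq1
    have hq3 := hS hqS
    rcases hq2 with h | h
    · have h' : 0 < q 1 := h
      rcases hq3.2 0 1 (by decide) with h4 | h4 <;> linarith
    · have h' : 0 < q 2 := h
      rcases hq3.2 0 2 (by decide) with h4 | h4 <;> linarith




theorem sym_of_gate (e : (Fin 3 → ℝ) → ℂ) (he : ContinuousOn e T3)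
    (c : ℝ) (hgate : ∀ (i : Fin 3),
      IsPreconnected {t : ℝ | t ∈ Icc (0:ℝ) 1 ∧ c ≤ dist (e (Pi.single i t)) (e 0)})
    (Z : Set ((Fin 3 → ℝ) × (Fin 3 → ℝ))) (hZT : Z ⊆ T3 ×ˢ T3)
    (hZk : IsCompact Z) (hZ : IsConnected Z) (hd : ∀ p ∈ Z, c ≤ dist (e p.1) (e p.2))
    (i : Fin 3)
    (h1 : ∃ t ∈ Icc (0:ℝ) 1, ((Pi.single i t : Fin 3 → ℝ), (0 : Fin 3 → ℝ)) ∈ Z)
    (h2 : ∃ t ∈ Icc (0:ℝ) 1, ((0 : Fin 3 → ℝ), (Pi.single i t : Fin 3 → ℝ)) ∈ Z) :
    ∃ W : Set ((Fin 3 → ℝ) × (Fin 3 → ℝ)), Z ⊆ W ∧ W ⊆ T3 ×ˢ T3 ∧ IsCompact W ∧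
      IsConnected W ∧ Prod.swap '' W = W ∧ ∀ p ∈ W, c ≤ dist (e p.1) (e p.2) := by
  have S1 : ∀ t ∈ Icc (0:ℝ) 1, (Pi.single i t : Fin 3 → ℝ) ∈ T3 := by
    intro t ht
    refine ⟨fun j => ?_, fun j k hjk => ?_⟩
    · by_cases h : j = i
      · subst h; rw [Pi.single_eq_same]; exact ht
      · rw [Pi.single_eq_of_ne h]; exact ⟨le_rfl, zero_le_one⟩
    · by_cases h : j = i
      · right; subst h; exact Pi.single_eq_of_ne (Ne.symm hjk) _
      · left; exact Pi.single_eq_of_ne h _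
  have S0 : (0 : Fin 3 → ℝ) ∈ T3 := ⟨fun j => ⟨le_rfl, zero_le_one⟩, fun j k _ => Or.inl rfl⟩
  have hApre := hgate i
  obtain ⟨A, hA⟩ : ∃ A : Set ℝ, A = {t : ℝ | t ∈ Icc (0:ℝ) 1 ∧
    c ≤ dist (e (Pi.single i t)) (e 0)} := ⟨_, rfl⟩
  rw [← hA] at hApre
  have hmA : ∀ t, t ∈ A ↔ t ∈ Icc (0:ℝ) 1 ∧ c ≤ dist (e (Pi.single i t)) (e 0) := by
    intro t; rw [hA]; rfl
  have hcs : Continuous (fun t : ℝ => (Pi.single i t : Fin 3 → ℝ)) := by
    refine continuous_pi fun j => ?_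
    by_cases h : j = i
    · subst h; simp only [Pi.single_eq_same]; exact continuous_id
    · simp only [Pi.single_eq_of_ne h]; exact continuous_const
  have hcont : ContinuousOn (fun t : ℝ => dist (e (Pi.single i t)) (e 0)) (Icc 0 1) :=
    continuous_dist.comp_continuousOn ((he.comp hcs.continuousOn S1).prodMk continuousOn_const)
  have hAc : IsCompact A := by
    have h3 : A = Icc (0:ℝ) 1 ∩ (fun t : ℝ => dist (e (Pi.single i t)) (e 0)) ⁻¹' Ici c := by
      ext t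
      rw [hmA]; rfl
    rw [h3]
    exact isCompact_Icc.of_isClosed_subset
      (hcont.preimage_isClosed_of_isClosed isClosed_Icc isClosed_Ici) inter_subset_left
  have hcf : Continuous (fun t : ℝ => ((Pi.single i t : Fin 3 → ℝ), (0 : Fin 3 → ℝ))) :=
    hcs.prodMk continuous_const
  obtain ⟨t1, ht1, hz1⟩ := h1
  obtain ⟨t2, ht2, hz2⟩ := h2
  have hA1 : t1 ∈ A := (hmA t1).2 ⟨ht1, hd _ hz1⟩
  have hA2 : t2 ∈ A := (hmA t2).2 ⟨ht2, by rw [dist_comm]; exact hd _ hz2⟩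
  obtain ⟨B, hB⟩ : ∃ B : Set ((Fin 3 → ℝ) × (Fin 3 → ℝ)),
    B = (fun t : ℝ => ((Pi.single i t : Fin 3 → ℝ), (0 : Fin 3 → ℝ))) '' A := ⟨_, rfl⟩
  have hBk : IsCompact B := by rw [hB]; exact hAc.image hcf
  have hBp : IsConnected B := by
    rw [hB]; exact IsConnected.image ⟨⟨t1, hA1⟩, hApre⟩ _ hcf.continuousOn
  have hB1 : ((Pi.single i t1 : Fin 3 → ℝ), (0 : Fin 3 → ℝ)) ∈ B := by
    rw [hB]; exact ⟨t1, hA1, rfl⟩
  have hB2 : ((Pi.single i t2 : Fin 3 → ℝ), (0 : Fin 3 → ℝ)) ∈ B := by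
    rw [hB]; exact ⟨t2, hA2, rfl⟩
  have hBT : B ⊆ T3 ×ˢ T3 := by
    rw [hB]
    rintro _ ⟨t, ht, rfl⟩
    exact ⟨S1 t ((hmA t).1 ht).1, S0⟩
  have hBd : ∀ p ∈ B, c ≤ dist (e p.1) (e p.2) := by
    rw [hB]
    rintro _ ⟨t, ht, rfl⟩
    exact ((hmA t).1 ht).2
  have hYc : IsConnected (Z ∪ B) := IsConnected.union ⟨_, hz1, hB1⟩ hZ hBp
  have hYk : IsCompact (Z ∪ B) := hZk.union hBk
  have hYT : Z ∪ B ⊆ T3 ×ˢ T3 := union_subset hZT hBT
  have hYd : ∀ p ∈ Z ∪ B, c ≤ dist (e p.1) (e p.2) := by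
    rintro p (hp | hp)
    · exact hd p hp
    · exact hBd p hp
  have hss : Prod.swap '' (Prod.swap '' (Z ∪ B)) = Z ∪ B := by
    rw [← image_comp, Prod.swap_swap_eq, image_id]
  refine ⟨(Z ∪ B) ∪ Prod.swap '' (Z ∪ B), fun p hp => Or.inl (Or.inl hp), ?_, ?_, ?_, ?_, ?_⟩
  · refine union_subset hYT ?_
    rintro _ ⟨p, hp, rfl⟩
    exact ⟨(hYT hp).2, (hYT hp).1⟩
  · exact hYk.union (hYk.image continuous_swap)
  · refine IsConnected.union ⟨((Pi.single i t2 : Fin 3 → ℝ), (0 : Fin 3 → ℝ)), Or.inr hB2,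
      ((0 : Fin 3 → ℝ), (Pi.single i t2 : Fin 3 → ℝ)), Or.inl hz2, rfl⟩ hYc
      (hYc.image _ continuous_swap.continuousOn)
  · rw [image_union, hss, union_comm]
  · rintro p (hp | ⟨q, hq, rfl⟩)
    · exact hYd p hp
    · rw [dist_comm]; exact hYd q hq




theorem transfer (e : (Fin 3 → ℝ) → ℂ) (he : ContinuousOn e T3) (hinj : InjOn e T3)
    (Z : Set (ℂ × ℂ)) (hZk : IsCompact Z) (hZ : IsConnected Z)
    (hZX : Z ⊆ (e '' T3) ×ˢ (e '' T3)) :
    ∃ Y : Set ((Fin 3 → ℝ) × (Fin 3 → ℝ)), Y ⊆ T3 ×ˢ T3 ∧ IsCompact Y ∧ IsConnected Y ∧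
      Prod.map e e '' Y = Z ∧ (∀ p ∈ T3 ×ˢ T3, Prod.map e e p ∈ Z → p ∈ Y) := by
  classical
  have hT3 : IsCompact T3 := by
    have hsub : T3 ⊆ Set.Icc (0 : Fin 3 → ℝ) 1 := by
      intro p hp
      exact ⟨fun i => (hp.1 i).1, fun i => (hp.1 i).2⟩
    have hcl : IsClosed T3 := by
      have h1 : IsClosed {p : Fin 3 → ℝ | ∀ i, 0 ≤ p i ∧ p i ≤ 1} := by
        simp only [Set.setOf_forall]
        refine isClosed_iInter (fun i => ?_)
        exact (isClosed_le continuous_const (continuous_apply i)).inter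
          (isClosed_le (continuous_apply i) continuous_const)
      have h2 : IsClosed {p : Fin 3 → ℝ | ∀ i j, i ≠ j → p i = 0 ∨ p j = 0} := by
        simp only [Set.setOf_forall]
        refine isClosed_iInter (fun i => isClosed_iInter (fun j => isClosed_iInter (fun _ => ?_)))
        exact (isClosed_eq (continuous_apply i) continuous_const).union
          (isClosed_eq (continuous_apply j) continuous_const)
      exact h1.inter h2
    exact isCompact_Icc.of_isClosed_subset hcl hsub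
  have hK : IsCompact (T3 ×ˢ T3) := hT3.prod hT3
  have hg : ContinuousOn (Prod.map e e) (T3 ×ˢ T3) := he.prodMap he
  have hgi : InjOn (Prod.map e e) (T3 ×ˢ T3) := by
    rintro ⟨a, b⟩ ⟨ha, hb⟩ ⟨c, d⟩ ⟨hc, hd⟩ h
    simp only [Prod.map_apply, Prod.mk.injEq] at h
    exact Prod.ext (hinj ha hc h.1) (hinj hb hd h.2)
  let Y : Set ((Fin 3 → ℝ) × (Fin 3 → ℝ)) := (T3 ×ˢ T3) ∩ (Prod.map e e) ⁻¹' Z
  have hYsub : Y ⊆ T3 ×ˢ T3 := Set.inter_subset_left
  have hYcl : IsClosed Y := hg.preimage_isClosed_of_isClosed hK.isClosed hZk.isClosed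
  have hYk : IsCompact Y := hK.of_isClosed_subset hYcl hYsub
  have hYim : Prod.map e e '' Y = Z := by
    apply Set.Subset.antisymm
    · rintro _ ⟨y, hy, rfl⟩
      exact hy.2
    · intro z hz
      obtain ⟨⟨a, ha, haz⟩, ⟨b, hb, hbz⟩⟩ := hZX hz
      have hab : Prod.map e e (a, b) = z := Prod.ext haz hbz
      refine ⟨(a, b), ⟨⟨ha, hb⟩, ?_⟩, hab⟩
      change Prod.map e e (a, b) ∈ Z
      rw [hab]
      exact hz
  refine ⟨Y, hYsub, hYk, ?_, hYim, fun p hp hpz => ⟨hp, hpz⟩⟩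
  haveI : CompactSpace Y := isCompact_iff_compactSpace.mp hYk
  let f : Y → ℂ × ℂ := fun y => Prod.map e e (y : (Fin 3 → ℝ) × (Fin 3 → ℝ))
  have hfc : Continuous f := by
    have := (hg.mono hYsub).restrict
    exact this
  have hfi : Function.Injective f := by
    intro x y hxy
    exact Subtype.ext (hgi (hYsub x.2) (hYsub y.2) hxy)
  have hemb : Topology.IsClosedEmbedding f := hfc.isClosedEmbedding hfi
  have hrange : f '' Set.univ = Z := by
    rw [Set.image_univ, ← hYim]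
    ext z
    constructor
    · rintro ⟨y, rfl⟩
      exact ⟨y, y.2, rfl⟩
    · rintro ⟨y, hy, rfl⟩
      exact ⟨⟨y, hy⟩, rfl⟩
  have hpre : IsPreconnected (Set.univ : Set Y) := by
    rw [← hemb.isInducing.isPreconnected_image, hrange]
    exact hZ.isPreconnected
  have hpreY : IsPreconnected Y := by
    have h := hpre.image (Subtype.val) continuous_subtype_val.continuousOn
    rwa [Set.image_univ, Subtype.range_coe] at h
  refine ⟨?_, hpreY⟩
  obtain ⟨z, hz⟩ := hZ.nonempty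
  rw [← hYim] at hz
  obtain ⟨y, hy, _⟩ := hz
  exact ⟨y, hy⟩



theorem T3_compact : IsCompact T3 := by
  have h1 : IsCompact (Set.pi univ (fun _ : Fin 3 => Icc (0 : ℝ) 1)) :=
    isCompact_univ_pi fun _ => isCompact_Icc
  have h2 : IsClosed T3 := by
    have h3 : T3 = (⋂ i, {p : Fin 3 → ℝ | 0 ≤ p i ∧ p i ≤ 1}) ∩
        ⋂ i, ⋂ j, {p : Fin 3 → ℝ | i ≠ j → p i = 0 ∨ p j = 0} := by
      ext p
      simp only [T3, mem_inter_iff, mem_iInter, Set.mem_ofPred_eq]
    rw [h3]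
    refine IsClosed.inter (isClosed_iInter fun i => ?_) (isClosed_iInter fun i =>
      isClosed_iInter fun j => ?_)
    · exact (isClosed_le continuous_const (continuous_apply i)).inter
        (isClosed_le (continuous_apply i) continuous_const)
    · by_cases hij : i = j
      · have h4 : {p : Fin 3 → ℝ | i ≠ j → p i = 0 ∨ p j = 0} = univ := by
          ext p
          simp [hij]
        rw [h4]
        exact isClosed_univ
      · have h4 : {p : Fin 3 → ℝ | i ≠ j → p i = 0 ∨ p j = 0} =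
            {p : Fin 3 → ℝ | p i = 0} ∪ {p : Fin 3 → ℝ | p j = 0} := by
          ext p
          simp [hij]
        rw [h4]
        exact (isClosed_eq (continuous_apply i) continuous_const).union
          (isClosed_eq (continuous_apply j) continuous_const)
  refine h1.of_isClosed_subset h2 ?_
  intro p hp i _
  exact hp.1 i




theorem common_gate_t3_zero {p : Fin 3 → ℝ} (hp : p ∈ T3) {i j : Fin 3} (hi : 0 < p i)
    (hij : j ≠ i) : p j = 0 := by
  rcases hp.2 i j hij.symm with h | h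
  · linarith
  · exact h

theorem common_gate_eq_single {p : Fin 3 → ℝ} {i : Fin 3} (h : ∀ j, j ≠ i → p j = 0) :
    p = Pi.single i (p i) := by
  funext j
  by_cases hj : j = i
  · subst hj; simp
  · rw [h j hj]; simp [hj]

theorem common_gate_single {p : Fin 3 → ℝ} (hp : p ∈ T3) {i : Fin 3} (hi : 0 < p i) :
    p = Pi.single i (p i) :=
  common_gate_eq_single fun _ hj => common_gate_t3_zero hp hi hj

theorem common_gate_ex {p : Fin 3 → ℝ} (hp : p ∈ T3) (h0 : p ≠ 0) : ∃ i, 0 < p i := by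
  by_contra h
  push Not at h
  apply h0
  funext i
  exact le_antisymm (h i) (hp.1 i).1

theorem common_gate_conn {X : Type} [TopologicalSpace X] {Z U V : Set X} (hZ : IsPreconnected Z)
    (hU : IsOpen U) (hV : IsOpen V) (hcov : ∀ p ∈ Z, p ∈ U ∨ p ∈ V)
    (hdis : ∀ p ∈ Z, p ∈ U → p ∈ V → False) {p0 : X} (h0 : p0 ∈ Z) (h0U : p0 ∈ U) :
    ∀ p ∈ Z, p ∈ U := by
  rcases isPreconnected_iff_subset_of_disjoint.1 hZ U V hU hV hcov (by
    rw [eq_empty_iff_forall_notMem]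
    rintro p ⟨h1, h2, h3⟩
    exact hdis p h1 h2 h3) with h | h
  · exact h
  · exact absurd (h h0) (fun h1 => hdis p0 h0 h0U h1)

theorem common_gate_zero (Z : Set ((Fin 3 → ℝ) × (Fin 3 → ℝ))) (hZT : Z ⊆ T3 ×ˢ T3)
    (hZk : IsCompact Z) (hZ : IsConnected Z) (hne : ∀ p ∈ Z, p.1 ≠ p.2)
    (hproj : Prod.fst '' Z = Prod.snd '' Z) : ∃ p ∈ Z, p.1 = 0 := by
  by_contra hcon
  push Not at hcon
  obtain ⟨p0, hp0⟩ := hZ.nonempty
  obtain ⟨i, hi⟩ := common_gate_ex (hZT hp0).1 (hcon p0 hp0)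
  have h1 : ∀ p ∈ Z, p ∈ {p : (Fin 3 → ℝ) × (Fin 3 → ℝ) | 0 < p.1 i} := by
    refine common_gate_conn (V := ⋃ j : Fin 3, {p : (Fin 3 → ℝ) × (Fin 3 → ℝ) | j ≠ i ∧ p.1 j ≠ 0})
      hZ.isPreconnected (isOpen_lt continuous_const (by fun_prop))
      (isOpen_iUnion fun j => isOpen_const.and (isOpen_ne_fun (by fun_prop) continuous_const))
      ?_ ?_ hp0 hi
    · intro p hp
      obtain ⟨k, hk⟩ := common_gate_ex (hZT hp).1 (hcon p hp)
      by_cases hki : k = i
      · left; rw [← hki]; exact hk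
      · right
        rw [mem_iUnion]
        exact ⟨k, hki, hk.ne'⟩
    · intro p hp h2 h3
      rw [mem_iUnion] at h3
      obtain ⟨j, hj, hj2⟩ := h3
      exact hj2 (common_gate_t3_zero (hZT hp).1 h2 hj)
  have h2 : ∀ p ∈ Z, 0 < p.2 i := by
    intro p hp
    have : p.2 ∈ Prod.fst '' Z := by rw [hproj]; exact ⟨p, hp, rfl⟩
    obtain ⟨p', hp', he⟩ := this
    rw [← he]
    exact h1 p' hp'
  have hne' : ∀ p ∈ Z, p.1 i ≠ p.2 i := by
    intro p hp he
    apply hne p hp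
    rw [common_gate_single (hZT hp).1 (h1 p hp), common_gate_single (hZT hp).2 (h2 p hp), he]
  have hAk : IsCompact (Prod.fst '' Z) := hZk.image continuous_fst
  have hAne : (Prod.fst '' Z).Nonempty := hZ.nonempty.image _
  have hoU : IsOpen {p : (Fin 3 → ℝ) × (Fin 3 → ℝ) | p.1 i < p.2 i} :=
    isOpen_lt (by fun_prop) (by fun_prop)
  have hoV : IsOpen {p : (Fin 3 → ℝ) × (Fin 3 → ℝ) | p.2 i < p.1 i} :=
    isOpen_lt (by fun_prop) (by fun_prop)
  have hev : ContinuousOn (fun a : Fin 3 → ℝ => a i) (Prod.fst '' Z) := by fun_prop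
  rcases lt_or_gt_of_ne (hne' p0 hp0) with h3 | h3
  · have h4 : ∀ p ∈ Z, p ∈ {p : (Fin 3 → ℝ) × (Fin 3 → ℝ) | p.1 i < p.2 i} :=
      common_gate_conn hZ.isPreconnected hoU hoV (fun p hp => lt_or_gt_of_ne (hne' p hp))
        (fun p _ (h5 : p.1 i < p.2 i) (h6 : p.2 i < p.1 i) => lt_asymm h5 h6) hp0 h3
    obtain ⟨a, ha, hmin⟩ := hAk.exists_isMinOn hAne hev
    rw [hproj] at ha
    obtain ⟨p, hp, rfl⟩ := ha
    have h5 : p.2 i ≤ p.1 i := hmin ⟨p, hp, rfl⟩
    exact absurd (h4 p hp) (not_lt.2 h5)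
  · have h4 : ∀ p ∈ Z, p ∈ {p : (Fin 3 → ℝ) × (Fin 3 → ℝ) | p.2 i < p.1 i} :=
      common_gate_conn hZ.isPreconnected hoV hoU (fun p hp => (lt_or_gt_of_ne (hne' p hp)).symm)
        (fun p _ (h5 : p.2 i < p.1 i) (h6 : p.1 i < p.2 i) => lt_asymm h5 h6) hp0 h3
    obtain ⟨a, ha, hmax⟩ := hAk.exists_isMaxOn hAne hev
    rw [hproj] at ha
    obtain ⟨p, hp, rfl⟩ := ha
    have h5 : p.1 i ≤ p.2 i := hmax ⟨p, hp, rfl⟩
    exact absurd (h4 p hp) (not_lt.2 h5)

theorem common_gate_main (Z : Set ((Fin 3 → ℝ) × (Fin 3 → ℝ))) (hZT : Z ⊆ T3 ×ˢ T3)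
    (hZk : IsCompact Z) (hZ : IsConnected Z) (hne : ∀ p ∈ Z, p.1 ≠ p.2)
    (hproj : Prod.fst '' Z = Prod.snd '' Z) (i : Fin 3)
    (hi1 : ∃ t ∈ Icc (0:ℝ) 1, ((Pi.single i t : Fin 3 → ℝ), (0 : Fin 3 → ℝ)) ∈ Z)
    (hi1u : ∀ j, (∃ t ∈ Icc (0:ℝ) 1, ((Pi.single j t : Fin 3 → ℝ), (0 : Fin 3 → ℝ)) ∈ Z) → j = i)
    (hi2 : ¬ ∃ t ∈ Icc (0:ℝ) 1, ((0 : Fin 3 → ℝ), (Pi.single i t : Fin 3 → ℝ)) ∈ Z) : False := by
  obtain ⟨z, hz, hz0⟩ := common_gate_zero Z hZT hZk hZ hne hproj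
  obtain ⟨t, ht, htZ⟩ := hi1
  have ht0 : 0 < t := by
    rcases ht.1.lt_or_eq with h | h
    · exact h
    · exfalso
      apply hne _ htZ
      rw [← h]; simp
  have hAk : IsCompact (Prod.fst '' Z) := hZk.image continuous_fst
  have hAne : (Prod.fst '' Z).Nonempty := hZ.nonempty.image _
  have hev : ContinuousOn (fun a : Fin 3 → ℝ => a i) (Prod.fst '' Z) := by fun_prop
  obtain ⟨a, ha, hmax⟩ := hAk.exists_isMaxOn hAne hev
  have hta : t ≤ a i := by
    have h1 : (Pi.single i t : Fin 3 → ℝ) i ≤ a i := hmax ⟨_, htZ, rfl⟩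
    simpa using h1
  have hai : 0 < a i := lt_of_lt_of_le ht0 hta
  rw [hproj] at ha
  obtain ⟨⟨x, a'⟩, hp, rfl⟩ := ha
  simp only at hai hmax hta
  have hxT : x ∈ T3 := (hZT hp).1
  have haT : a' ∈ T3 := (hZT hp).2
  have hx0 : x ≠ 0 := by
    rintro rfl
    apply hi2
    refine ⟨a' i, (haT.1 i), ?_⟩
    rw [← common_gate_single haT hai]
    exact hp
  obtain ⟨j, hj⟩ := common_gate_ex hxT hx0
  by_cases hji : j = i
  · subst hji
    have hxa : x j ≤ a' j := hmax ⟨_, hp, rfl⟩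
    have hxa' : x j < a' j := by
      rcases hxa.lt_or_eq with h | h
      · exact h
      · exfalso
        apply hne _ hp
        simp only
        rw [common_gate_single hxT hj, common_gate_single haT hai, h]
    have h4 : ∀ p ∈ Z, p ∈ {p : (Fin 3 → ℝ) × (Fin 3 → ℝ) | 0 < p.1 j ∧ p.1 j < p.2 j} := by
      refine common_gate_conn
        (V := {p : (Fin 3 → ℝ) × (Fin 3 → ℝ) | p.2 j < p.1 j} ∪
          ⋃ k : Fin 3, {p : (Fin 3 → ℝ) × (Fin 3 → ℝ) | k ≠ j ∧ (p.1 k ≠ 0 ∨ p.2 k ≠ 0)})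
        hZ.isPreconnected
        ((isOpen_lt continuous_const (by fun_prop)).and (isOpen_lt (by fun_prop) (by fun_prop)))
        ((isOpen_lt (by fun_prop) (by fun_prop)).union
          (isOpen_iUnion fun k => isOpen_const.and
            (show IsOpen ({p : (Fin 3 → ℝ) × (Fin 3 → ℝ) | p.1 k ≠ 0} ∪ {p | p.2 k ≠ 0}) from
              (isOpen_ne_fun (by fun_prop) continuous_const).union
              (isOpen_ne_fun (by fun_prop) continuous_const))))
        ?_ ?_ hp ⟨hj, hxa'⟩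
      · intro p hpZ
        by_contra hcon
        rw [not_or] at hcon
        obtain ⟨c1, c2⟩ := hcon
        rw [mem_union, not_or] at c2
        obtain ⟨c2, c3⟩ := c2
        have c2' : p.1 j ≤ p.2 j := not_lt.1 c2
        have c3' : ∀ k, k ≠ j → p.1 k = 0 ∧ p.2 k = 0 := by
          intro k hk
          by_contra h5
          apply c3
          rw [mem_iUnion]
          refine ⟨k, hk, ?_⟩
          by_contra h6
          rw [not_or, not_not, not_not] at h6
          exact h5 h6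
        have e1 : p.1 = Pi.single j (p.1 j) := common_gate_eq_single fun k hk => (c3' k hk).1
        have e2 : p.2 = Pi.single j (p.2 j) := common_gate_eq_single fun k hk => (c3' k hk).2
        have hpos : 0 < p.1 j := by
          rcases ((hZT hpZ).1.1 j).1.lt_or_eq with h | h
          · exact h
          · exfalso
            apply hi2
            refine ⟨p.2 j, (hZT hpZ).2.1 j, ?_⟩
            rw [← e2]
            have e3 : p.1 = 0 := by rw [e1, ← h]; simp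
            rw [← e3]
            exact hpZ
        apply c1
        refine ⟨hpos, lt_of_le_of_ne c2' ?_⟩
        intro h
        apply hne p hpZ
        rw [e1, e2, h]
      · rintro p hpZ ⟨h5, h6⟩ h7
        rcases h7 with h7 | h7
        · exact lt_asymm h6 h7
        · rw [mem_iUnion] at h7
          obtain ⟨k, hk, h8 | h8⟩ := h7
          · exact h8 (common_gate_t3_zero (hZT hpZ).1 h5 hk)
          · exact h8 (common_gate_t3_zero (hZT hpZ).2 (h5.trans h6) hk)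
    have h5 := (h4 z hz).1
    rw [hz0] at h5
    simp at h5
  · have h4 : ∀ p ∈ Z, p ∈ {p : (Fin 3 → ℝ) × (Fin 3 → ℝ) | 0 < p.1 j ∧ 0 < p.2 i} := by
      refine common_gate_conn
        (V := (⋃ k : Fin 3, {p : (Fin 3 → ℝ) × (Fin 3 → ℝ) | k ≠ j ∧ p.1 k ≠ 0}) ∪
          ⋃ k : Fin 3, {p : (Fin 3 → ℝ) × (Fin 3 → ℝ) | k ≠ i ∧ p.2 k ≠ 0})
        hZ.isPreconnected
        ((isOpen_lt continuous_const (by fun_prop)).and (isOpen_lt continuous_const (by fun_prop)))
        ((isOpen_iUnion fun k => isOpen_const.and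
            (isOpen_ne_fun (by fun_prop) continuous_const)).union
          (isOpen_iUnion fun k => isOpen_const.and
            (isOpen_ne_fun (by fun_prop) continuous_const)))
        ?_ ?_ hp ⟨hj, hai⟩
      · intro p hpZ
        by_contra hcon
        rw [not_or] at hcon
        obtain ⟨c1, c2⟩ := hcon
        rw [mem_union, not_or] at c2
        obtain ⟨c2, c3⟩ := c2
        have c2' : ∀ k, k ≠ j → p.1 k = 0 := by
          intro k hk
          by_contra h5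
          apply c2
          rw [mem_iUnion]
          exact ⟨k, hk, h5⟩
        have c3' : ∀ k, k ≠ i → p.2 k = 0 := by
          intro k hk
          by_contra h5
          apply c3
          rw [mem_iUnion]
          exact ⟨k, hk, h5⟩
        have e1 : p.1 = Pi.single j (p.1 j) := common_gate_eq_single c2'
        have e2 : p.2 = Pi.single i (p.2 i) := common_gate_eq_single c3'
        have hpos : 0 < p.1 j := by
          rcases ((hZT hpZ).1.1 j).1.lt_or_eq with h | h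
          · exact h
          · exfalso
            apply hi2
            refine ⟨p.2 i, (hZT hpZ).2.1 i, ?_⟩
            rw [← e2]
            have e3 : p.1 = 0 := by rw [e1, ← h]; simp
            rw [← e3]
            exact hpZ
        have hpos2 : 0 < p.2 i := by
          rcases ((hZT hpZ).2.1 i).1.lt_or_eq with h | h
          · exact h
          · exfalso
            apply hji
            apply hi1u
            refine ⟨p.1 j, (hZT hpZ).1.1 j, ?_⟩
            rw [← e1]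
            have e3 : p.2 = 0 := by rw [e2, ← h]; simp
            rw [← e3]
            exact hpZ
        exact c1 ⟨hpos, hpos2⟩
      · rintro p hpZ ⟨h5, h6⟩ h7
        rcases h7 with h7 | h7
        · rw [mem_iUnion] at h7
          obtain ⟨k, hk, h8⟩ := h7
          exact h8 (common_gate_t3_zero (hZT hpZ).1 h5 hk)
        · rw [mem_iUnion] at h7
          obtain ⟨k, hk, h8⟩ := h7
          exact h8 (common_gate_t3_zero (hZT hpZ).2 h6 hk)
    have h5 := (h4 z hz).1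
    rw [hz0] at h5
    simp at h5

theorem common_gate (Z : Set ((Fin 3 → ℝ) × (Fin 3 → ℝ))) (hZT : Z ⊆ T3 ×ˢ T3)
    (hZk : IsCompact Z) (hZ : IsConnected Z) (hne : ∀ p ∈ Z, p.1 ≠ p.2)
    (hproj : Prod.fst '' Z = Prod.snd '' Z) :
    ∃ i : Fin 3, (∃ t ∈ Icc (0:ℝ) 1, ((Pi.single i t : Fin 3 → ℝ), (0 : Fin 3 → ℝ)) ∈ Z) ∧
      (∃ t ∈ Icc (0:ℝ) 1, ((0 : Fin 3 → ℝ), (Pi.single i t : Fin 3 → ℝ)) ∈ Z) := by
  by_contra hcon
  push Not at hcon
  -- swapped set
  obtain ⟨Z', hZ'⟩ : ∃ Z' : Set ((Fin 3 → ℝ) × (Fin 3 → ℝ)), Z' = Prod.swap '' Z := ⟨_, rfl⟩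
  have hmem : ∀ x y : Fin 3 → ℝ, (x, y) ∈ Z' ↔ (y, x) ∈ Z := by
    intro x y
    rw [hZ']
    constructor
    · rintro ⟨⟨a, b⟩, h, he⟩
      simp only [Prod.swap_prod_mk, Prod.mk.injEq] at he
      rw [← he.1, ← he.2]; exact h
    · intro h
      exact ⟨(y, x), h, rfl⟩
  have hZT' : Z' ⊆ T3 ×ˢ T3 := by
    rintro ⟨x, y⟩ h
    have := hZT ((hmem x y).1 h)
    exact ⟨this.2, this.1⟩
  have hZk' : IsCompact Z' := by rw [hZ']; exact hZk.image continuous_swap
  have hZc' : IsConnected Z' := by rw [hZ']; exact hZ.image _ continuous_swap.continuousOn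
  have hne' : ∀ p ∈ Z', p.1 ≠ p.2 := by
    rintro ⟨x, y⟩ h
    exact fun he => hne _ ((hmem x y).1 h) he.symm
  have hproj' : Prod.fst '' Z' = Prod.snd '' Z' := by
    have e1 : Prod.fst '' Z' = Prod.snd '' Z := by
      rw [hZ', image_image]; rfl
    have e2 : Prod.snd '' Z' = Prod.fst '' Z := by
      rw [hZ', image_image]; rfl
    rw [e1, e2, hproj]
  -- zeros
  have hsing : ∀ p ∈ T3, ∃ k : Fin 3, p = Pi.single k (p k) := by
    intro p hp
    by_cases h0 : p = 0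
    · exact ⟨0, by rw [h0]; simp⟩
    · obtain ⟨k, hk⟩ := common_gate_ex hp h0
      exact ⟨k, common_gate_single hp hk⟩
  obtain ⟨⟨z1, z2⟩, hz, hz0⟩ := common_gate_zero Z hZT hZk hZ hne hproj
  obtain ⟨⟨y1, y2⟩, hy, hy0⟩ := common_gate_zero Z' hZT' hZk' hZc' hne' hproj'
  simp only at hz0 hy0
  subst hz0 hy0
  rw [hmem] at hy
  obtain ⟨k, hk⟩ := hsing z2 (hZT hz).2
  obtain ⟨i, hi⟩ := hsing y2 (hZT hy).1
  have hI2 : ∃ t ∈ Icc (0:ℝ) 1, ((0 : Fin 3 → ℝ), (Pi.single k t : Fin 3 → ℝ)) ∈ Z :=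
    ⟨z2 k, (hZT hz).2.1 k, by rw [← hk]; exact hz⟩
  have hI1 : ∃ t ∈ Icc (0:ℝ) 1, ((Pi.single i t : Fin 3 → ℝ), (0 : Fin 3 → ℝ)) ∈ Z :=
    ⟨y2 i, (hZT hy).1.1 i, by rw [← hi]; exact hy⟩
  have hdis : ∀ i : Fin 3, (∃ t ∈ Icc (0:ℝ) 1, ((Pi.single i t : Fin 3 → ℝ), (0 : Fin 3 → ℝ)) ∈ Z) →
      ¬ (∃ t ∈ Icc (0:ℝ) 1, ((0 : Fin 3 → ℝ), (Pi.single i t : Fin 3 → ℝ)) ∈ Z) := by
    intro i h1 h2
    obtain ⟨t, ht, h3⟩ := h2
    exact hcon i h1 t ht h3
  by_cases hu : ∀ j, (∃ t ∈ Icc (0:ℝ) 1, ((Pi.single j t : Fin 3 → ℝ), (0 : Fin 3 → ℝ)) ∈ Z) → j = i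
  · exact common_gate_main Z hZT hZk hZ hne hproj i hI1 hu (hdis i hI1)
  · push Not at hu
    obtain ⟨j, hj1, hji⟩ := hu
    refine common_gate_main Z' hZT' hZk' hZc' hne' hproj' k ?_ ?_ ?_
    · obtain ⟨t, ht, h3⟩ := hI2
      exact ⟨t, ht, (hmem _ _).2 h3⟩
    · rintro l ⟨t, ht, h3⟩
      rw [hmem] at h3
      have hl : ∃ t ∈ Icc (0:ℝ) 1, ((0 : Fin 3 → ℝ), (Pi.single l t : Fin 3 → ℝ)) ∈ Z := ⟨t, ht, h3⟩
      have n1 : l ≠ i := by rintro rfl; exact hdis _ hI1 hl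
      have n2 : l ≠ j := by rintro rfl; exact hdis _ hj1 hl
      have n3 : k ≠ i := by rintro rfl; exact hdis _ hI1 hI2
      have n4 : k ≠ j := by rintro rfl; exact hdis _ hj1 hI2
      omega
    · rintro ⟨t, ht, h3⟩
      rw [hmem] at h3
      exact hdis k ⟨t, ht, h3⟩ hI2



end Pool.Agent.Helper787.Triod
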