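import Pool.Agent.Helper787.Triod.Klem
import Pool.Agent.Helper787.Triod.Parts
set_option autoImplicit false

namespace Pool.Agent.Helper787.Triod

open Set Topology

/-- pairs of the triod at distance at least `c` -/
def Ec (e : (Fin 3 → ℝ) → ℂ) (c : ℝ) : Set ((Fin 3 → ℝ) × (Fin 3 → ℝ)) :=
  {p | p ∈ T3 ×ˢ T3 ∧ c ≤ dist (e p.1) (e p.2)}

theorem Ec_compact (e : (Fin 3 → ℝ) → ℂ) (he : ContinuousOn e T3) (c : ℝ) :
    IsCompact (Ec e c) := by
  have hT : IsCompact (T3 ×ˢ T3) := T3_compact.prod T3_compact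
  have h1 : ContinuousOn (fun p : (Fin 3 → ℝ) × (Fin 3 → ℝ) => dist (e p.1) (e p.2))
      (T3 ×ˢ T3) :=
    continuous_dist.comp_continuousOn
      ((he.comp continuous_fst.continuousOn (fun p hp => hp.1)).prodMk
        (he.comp continuous_snd.continuousOn (fun p hp => hp.2)))
  have h2 : Ec e c = (T3 ×ˢ T3) ∩
      (fun p : (Fin 3 → ℝ) × (Fin 3 → ℝ) => dist (e p.1) (e p.2)) ⁻¹' (Ici c) := by
    ext p
    simp [Ec]
  rw [h2]
  exact hT.of_isClosed_subset (h1.preimage_isClosed_of_isClosed hT.isClosed isClosed_Ici)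
    inter_subset_left

theorem core_fst (e : (Fin 3 → ℝ) → ℂ) (he : ContinuousOn e T3) (hinj : InjOn e T3)
    (c : ℝ) (hc : 0 < c) (Z : Set ((Fin 3 → ℝ) × (Fin 3 → ℝ))) (hZ : IsPreconnected Z)
    (hZE : Z ⊆ Ec e c) (z : (Fin 3 → ℝ) × (Fin 3 → ℝ)) (hz : z ∈ Z)
    (hess : ¬ ∃ l : (Fin 3 → ℝ) × (Fin 3 → ℝ) → ℂ, ContinuousOn l Z ∧
      ∀ p ∈ Z, Complex.exp (l p) = e p.1 - e p.2) :
    Prod.fst '' connectedComponentIn (Ec e c) z = T3 := by
  have hsub : connectedComponentIn (Ec e c) z ⊆ Ec e c := connectedComponentIn_subset _ _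
  apply tips_full
  · rintro _ ⟨p, hp, rfl⟩
    exact (hsub hp).1.1
  · exact isPreconnected_connectedComponentIn.image _ continuous_fst.continuousOn
  · intro i
    by_contra hi
    have hD : IsClosed {p : (Fin 3 → ℝ) × (Fin 3 → ℝ) | p.1 = Pi.single i 1} :=
      isClosed_eq continuous_fst continuous_const
    have hdisj : Disjoint (connectedComponentIn (Ec e c) z)
        {p : (Fin 3 → ℝ) × (Fin 3 → ℝ) | p.1 = Pi.single i 1} := by
      rw [Set.disjoint_left]
      intro p hp hp2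
      exact hi ⟨p, hp, hp2⟩
    obtain ⟨K, hK1, hK2, hK3, hK4, hK5⟩ :=
      sep_clopen (Ec e c) (Ec_compact e he c) z (hZE hz) _ hD hdisj
    obtain ⟨l, hl, hl2⟩ := klemma e he hinj c hc K (fun p hp => (hK1 hp).1) hK2
      (fun p hp => (hK1 hp).2) hK3.isClosed i (by
        intro p hp hp2
        exact (Set.disjoint_left.1 hK5) hp hp2)
    have hZK : Z ⊆ K := (hZ.subset_connectedComponentIn hz hZE).trans hK4
    exact hess ⟨l, hl.mono hZK, fun p hp => hl2 p (hZK hp)⟩

theorem core (e : (Fin 3 → ℝ) → ℂ) (he : ContinuousOn e T3) (hinj : InjOn e T3)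
    (c : ℝ) (hc : 0 < c) (Z : Set ((Fin 3 → ℝ) × (Fin 3 → ℝ))) (hZ : IsPreconnected Z)
    (hZE : Z ⊆ Ec e c) (z : (Fin 3 → ℝ) × (Fin 3 → ℝ)) (hz : z ∈ Z)
    (hess : ¬ ∃ l : (Fin 3 → ℝ) × (Fin 3 → ℝ) → ℂ, ContinuousOn l Z ∧
      ∀ p ∈ Z, Complex.exp (l p) = e p.1 - e p.2) :
    ∃ W : Set ((Fin 3 → ℝ) × (Fin 3 → ℝ)), Z ⊆ W ∧ W ⊆ Ec e c ∧ IsCompact W ∧
      IsConnected W ∧ Prod.fst '' W = T3 ∧ Prod.snd '' W = T3 := by
  have hsub : connectedComponentIn (Ec e c) z ⊆ Ec e c := connectedComponentIn_subset _ _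
  refine ⟨connectedComponentIn (Ec e c) z, hZ.subset_connectedComponentIn hz hZE, hsub, ?_,
    isConnected_connectedComponentIn_iff.2 (hZE hz),
    core_fst e he hinj c hc Z hZ hZE z hz hess, ?_⟩
  · apply (Ec_compact e he c).of_isClosed_subset _ hsub
    have h1 : closure (connectedComponentIn (Ec e c) z) ⊆ Ec e c :=
      closure_minimal hsub (Ec_compact e he c).isClosed
    have h2 : closure (connectedComponentIn (Ec e c) z) ⊆ connectedComponentIn (Ec e c) z :=
      isPreconnected_connectedComponentIn.closure.subset_connectedComponentIn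
        (subset_closure (mem_connectedComponentIn (hZE hz))) h1
    exact closure_subset_iff_isClosed.1 h2
  · have hswE : ∀ p ∈ Ec e c, p.swap ∈ Ec e c := by
      rintro p ⟨⟨h1, h2⟩, h3⟩
      exact ⟨⟨h2, h1⟩, by rw [dist_comm] at h3; exact h3⟩
    have h1 := core_fst e he hinj c hc (Prod.swap '' Z)
      (hZ.image _ continuous_swap.continuousOn)
      (by rintro _ ⟨p, hp, rfl⟩; exact hswE p (hZE hp)) z.swap ⟨z, hz, rfl⟩ (by
        rintro ⟨l, hl, hl2⟩
        apply hess
        refine ⟨fun p => l p.swap + Real.pi * Complex.I, ?_, ?_⟩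
        · apply ContinuousOn.add _ continuousOn_const
          exact hl.comp continuous_swap.continuousOn (fun p hp => ⟨p, hp, rfl⟩)
        · intro p hp
          rw [Complex.exp_add, hl2 p.swap ⟨p, hp, rfl⟩, Complex.exp_pi_mul_I]
          simp)
    apply Subset.antisymm
    · rintro _ ⟨p, hp, rfl⟩
      exact (hsub hp).1.2
    · intro x hx
      rw [← h1] at hx
      obtain ⟨p, hp, rfl⟩ := hx
      refine ⟨p.swap, ?_, rfl⟩
      have h2 : Prod.swap '' connectedComponentIn (Ec e c) z.swap ⊆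
          connectedComponentIn (Ec e c) z := by
        apply (isPreconnected_connectedComponentIn.image _
          continuous_swap.continuousOn).subset_connectedComponentIn
        · exact ⟨z.swap, mem_connectedComponentIn (hswE z (hZE hz)), Prod.swap_swap z⟩
        · rintro _ ⟨q, hq, rfl⟩
          exact hswE q (connectedComponentIn_subset _ _ hq)
      exact h2 ⟨p, hp, rfl⟩

end Pool.Agent.Helper787.Triod
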