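import Mathlib
set_option autoImplicit false

namespace Pool.Agent.Helper787.Triod

open Set Topology

/-- The standard simple triod: the three unit segments of the coordinate axes of `ℝ³`,
which share the origin and are otherwise disjoint. -/
def T3 : Set (Fin 3 → ℝ) :=
  {p | (∀ i, 0 ≤ p i ∧ p i ≤ 1) ∧ ∀ i j, i ≠ j → p i = 0 ∨ p j = 0}

/-- `X` is a simple triod on the plane: the image of the standard (compact) triod under a
continuous injective map. -/
def IsSimpleTriod (X : Set ℂ) : Prop :=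
  ∃ e : (Fin 3 → ℝ) → ℂ, ContinuousOn e T3 ∧ Set.InjOn e T3 ∧ e '' T3 = X

/-- The numbers `inf d(x,y)` over continua `Z` in `X × X` with equal projections. -/
def spanSet (X : Set ℂ) : Set ℝ :=
  {c | ∃ Z : Set (ℂ × ℂ), IsCompact Z ∧ IsConnected Z ∧ Z ⊆ X ×ˢ X ∧
    Prod.fst '' Z = Prod.snd '' Z ∧ c = sInf ((fun z : ℂ × ℂ => dist z.1 z.2) '' Z)}

/-- The numbers `inf d(x,y)` over continua `Z` in `X × X` with both projections onto `X`. -/
def surjSet (X : Set ℂ) : Set ℝ :=
  {c | ∃ Z : Set (ℂ × ℂ), IsCompact Z ∧ IsConnected Z ∧ Z ⊆ X ×ˢ X ∧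
    Prod.fst '' Z = X ∧ Prod.snd '' Z = X ∧ c = sInf ((fun z : ℂ × ℂ => dist z.1 z.2) '' Z)}

/-- The numbers `inf d(x,y)` over continua `Z` in `X × X` that are symmetric under the swap. -/
def symSet (X : Set ℂ) : Set ℝ :=
  {c | ∃ Z : Set (ℂ × ℂ), IsCompact Z ∧ IsConnected Z ∧ Z ⊆ X ×ˢ X ∧
    Prod.swap '' Z = Z ∧ c = sInf ((fun z : ℂ × ℂ => dist z.1 z.2) '' Z)}

/-- the span -/
noncomputable def span (X : Set ℂ) : ℝ := sSup (spanSet X)

/-- the surjective span -/
noncomputable def surjSpan (X : Set ℂ) : ℝ := sSup (surjSet X)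

/-- the symmetric span -/
noncomputable def symSpan (X : Set ℂ) : ℝ := sSup (symSet X)

end Pool.Agent.Helper787.Triod
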