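import Pool.Agent.Helper787.Triod.Core
set_option autoImplicit false

namespace Pool.Agent.Helper787.Triod

open Set Topology

theorem zero_mem_T3 : (0 : Fin 3 → ℝ) ∈ T3 := by
  have := smul_mem_T3 (single_mem_T3 0 ⟨zero_le_one, le_refl 1⟩) (le_refl 0) zero_le_one
  simpa using this

theorem T3_connected : IsConnected T3 := by
  have h : T3 = ⋃ p ∈ T3, (fun t : ℝ => t • p) '' Icc (0:ℝ) 1 := by
    ext q
    simp only [mem_iUnion, mem_image, exists_prop]
    constructor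
    · intro hq
      exact ⟨q, hq, 1, ⟨zero_le_one, le_refl 1⟩, one_smul _ _⟩
    · rintro ⟨p, hp, t, ht, rfl⟩
      exact smul_mem_T3 hp ht.1 ht.2
  refine ⟨⟨0, zero_mem_T3⟩, ?_⟩
  rw [h, biUnion_eq_iUnion]
  apply isPreconnected_iUnion
  · refine ⟨0, ?_⟩
    simp only [mem_iInter]
    intro p
    exact ⟨0, ⟨le_refl 0, zero_le_one⟩, zero_smul _ _⟩
  · intro p
    exact isPreconnected_Icc.image _ (by fun_prop)

theorem dist_bound {X : Set ℂ} (hX : IsCompact X) {Z : Set (ℂ × ℂ)} (hZ : Z.Nonempty)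
    (hZX : Z ⊆ X ×ˢ X) :
    sInf ((fun z : ℂ × ℂ => dist z.1 z.2) '' Z) ≤ Metric.diam X := by
  obtain ⟨z, hz⟩ := hZ
  calc sInf ((fun z : ℂ × ℂ => dist z.1 z.2) '' Z) ≤ dist z.1 z.2 :=
        csInf_le ⟨0, by rintro _ ⟨w, _, rfl⟩; exact dist_nonneg⟩ ⟨z, hz, rfl⟩
    _ ≤ Metric.diam X := Metric.dist_le_diam_of_mem hX.isBounded (hZX hz).1 (hZX hz).2

theorem surj_bdd {X : Set ℂ} (hX : IsCompact X) : BddAbove (surjSet X) := by
  refine ⟨Metric.diam X, ?_⟩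
  rintro c ⟨Z, h1, h2, h3, h4, h5, rfl⟩
  exact dist_bound hX h2.nonempty h3

theorem span_bdd {X : Set ℂ} (hX : IsCompact X) : BddAbove (spanSet X) := by
  refine ⟨Metric.diam X, ?_⟩
  rintro c ⟨Z, h1, h2, h3, h4, rfl⟩
  exact dist_bound hX h2.nonempty h3

theorem surj_sub {X : Set ℂ} : surjSet X ⊆ spanSet X := by
  rintro c ⟨Z, h1, h2, h3, h4, h5, rfl⟩
  exact ⟨Z, h1, h2, h3, by rw [h4, h5], rfl⟩

theorem zero_mem_surj {X : Set ℂ} (hX : IsCompact X) (hXc : IsConnected X) :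
    (0:ℝ) ∈ surjSet X := by
  refine ⟨(fun x => (x, x)) '' X, hX.image (by fun_prop),
    hXc.image _ (by fun_prop), ?_, ?_, ?_, ?_⟩
  · rintro _ ⟨x, hx, rfl⟩
    exact ⟨hx, hx⟩
  · rw [image_image]; simp
  · rw [image_image]; simp
  · rw [image_image]
    have : (fun x : ℂ => dist ((x, x) : ℂ × ℂ).1 ((x, x) : ℂ × ℂ).2) = fun _ => (0:ℝ) := by
      funext x; simp
    rw [this, hXc.nonempty.image_const]
    simp

theorem from_sym (e : (Fin 3 → ℝ) → ℂ) (he : ContinuousOn e T3) (hinj : InjOn e T3)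
    (c : ℝ) (hc : 0 < c) (Y : Set ((Fin 3 → ℝ) × (Fin 3 → ℝ))) (hY : IsConnected Y)
    (hYT : Y ⊆ T3 ×ˢ T3) (hd : ∀ p ∈ Y, c ≤ dist (e p.1) (e p.2))
    (hsw : Prod.swap '' Y = Y) : c ≤ surjSpan (e '' T3) := by
  obtain ⟨z, hz⟩ := hY.nonempty
  obtain ⟨W, h1, h2, h3, h4, h5, h6⟩ := core e he hinj c hc Y hY.isPreconnected
    (fun p hp => ⟨hYT hp, hd p hp⟩) z hz
    (odd_no_log Y hY hsw (fun p => e p.1 - e p.2) (fun p _ => by simp))
  have hXk : IsCompact (e '' T3) := T3_compact.image_of_continuousOn he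
  have hmc : ContinuousOn (Prod.map e e) W :=
    (he.comp continuous_fst.continuousOn (fun p hp => (h2 hp).1.1)).prodMk
      (he.comp continuous_snd.continuousOn (fun p hp => (h2 hp).1.2))
  have hmem : sInf ((fun z : ℂ × ℂ => dist z.1 z.2) '' (Prod.map e e '' W)) ∈
      surjSet (e '' T3) := by
    refine ⟨Prod.map e e '' W, h3.image_of_continuousOn hmc, h4.image _ hmc, ?_, ?_, ?_, rfl⟩
    · rintro _ ⟨p, hp, rfl⟩
      exact ⟨⟨p.1, (h2 hp).1.1, rfl⟩, ⟨p.2, (h2 hp).1.2, rfl⟩⟩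
    · rw [← h5, image_image, image_image]
      rfl
    · rw [← h6, image_image, image_image]
      rfl
  have hle := le_csSup (surj_bdd hXk) hmem
  refine le_trans ?_ hle
  apply le_csInf
  · exact (h4.nonempty.image _).image _
  · rintro _ ⟨_, ⟨p, hp, rfl⟩, rfl⟩
    exact (h2 hp).2

theorem sym_le_surj (e : (Fin 3 → ℝ) → ℂ) (he : ContinuousOn e T3) (hinj : InjOn e T3) :
    symSpan (e '' T3) ≤ surjSpan (e '' T3) := by
  have hXk : IsCompact (e '' T3) := T3_compact.image_of_continuousOn he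
  have hXc : IsConnected (e '' T3) := T3_connected.image _ he
  have h0 : 0 ≤ surjSpan (e '' T3) := le_csSup (surj_bdd hXk) (zero_mem_surj hXk hXc)
  by_cases hne : (symSet (e '' T3)).Nonempty
  · apply csSup_le hne
    rintro c ⟨Z, h1, h2, h3, h4, rfl⟩
    rcases le_or_gt (sInf ((fun z : ℂ × ℂ => dist z.1 z.2) '' Z)) 0 with hc | hc
    · exact hc.trans h0
    · obtain ⟨Y, g1, g2, g3, g4, g5⟩ := transfer e he hinj Z h1 h2 h3
      apply from_sym e he hinj _ hc Y g3 g1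
      · intro p hp
        apply csInf_le ⟨0, by rintro _ ⟨w, _, rfl⟩; exact dist_nonneg⟩
        refine ⟨Prod.map e e p, ?_, rfl⟩
        rw [← g4]
        exact ⟨p, hp, rfl⟩
      · have key : ∀ p ∈ Y, p.swap ∈ Y := by
          intro p hp
          apply g5
          · exact ⟨(g1 hp).2, (g1 hp).1⟩
          · rw [← h4]
            refine ⟨Prod.map e e p, ?_, rfl⟩
            rw [← g4]
            exact ⟨p, hp, rfl⟩
        apply Subset.antisymm
        · rintro _ ⟨p, hp, rfl⟩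
          exact key p hp
        · intro p hp
          exact ⟨p.swap, key p hp, Prod.swap_swap p⟩
  · rw [not_nonempty_iff_eq_empty] at hne
    rw [symSpan, hne, Real.sSup_empty]
    exact h0

theorem surj_le_span (e : (Fin 3 → ℝ) → ℂ) (he : ContinuousOn e T3) :
    surjSpan (e '' T3) ≤ span (e '' T3) := by
  have hXk : IsCompact (e '' T3) := T3_compact.image_of_continuousOn he
  have hXc : IsConnected (e '' T3) := T3_connected.image _ he
  exact csSup_le_csSup (span_bdd hXk) ⟨0, zero_mem_surj hXk hXc⟩ surj_sub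

theorem gate_of_lt (e : (Fin 3 → ℝ) → ℂ) (he : ContinuousOn e T3) (hinj : InjOn e T3)
    (hlt : surjSpan (e '' T3) < span (e '' T3)) :
    ∃ (i : Fin 3) (r : ℝ), surjSpan (e '' T3) < r ∧ r ≤ span (e '' T3) ∧
      ¬ IsPreconnected {t : ℝ | t ∈ Icc (0:ℝ) 1 ∧ r ≤ dist (e (Pi.single i t)) (e 0)} := by
  have hXk : IsCompact (e '' T3) := T3_compact.image_of_continuousOn he
  have hXc : IsConnected (e '' T3) := T3_connected.image _ he
  have h0 : 0 ≤ surjSpan (e '' T3) := le_csSup (surj_bdd hXk) (zero_mem_surj hXk hXc)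
  obtain ⟨c, hcm, hlt2⟩ := exists_lt_of_lt_csSup ⟨0, surj_sub (zero_mem_surj hXk hXc)⟩ hlt
  have hcs : c ≤ span (e '' T3) := le_csSup (span_bdd hXk) hcm
  by_contra hcon
  push Not at hcon
  have hgate := fun i => hcon i c hlt2 hcs
  obtain ⟨Z, h1, h2, h3, h4, rfl⟩ := hcm
  have hc : 0 < sInf ((fun z : ℂ × ℂ => dist z.1 z.2) '' Z) := h0.trans_lt hlt2
  obtain ⟨Y, g1, g2, g3, g4, g5⟩ := transfer e he hinj Z h1 h2 h3
  have hd : ∀ p ∈ Y, sInf ((fun z : ℂ × ℂ => dist z.1 z.2) '' Z) ≤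
      dist (e p.1) (e p.2) := by
    intro p hp
    apply csInf_le ⟨0, by rintro _ ⟨w, _, rfl⟩; exact dist_nonneg⟩
    refine ⟨Prod.map e e p, ?_, rfl⟩
    rw [← g4]
    exact ⟨p, hp, rfl⟩
  have hproj : Prod.fst '' Y = Prod.snd '' Y := by
    apply Subset.antisymm
    · rintro _ ⟨p, hp, rfl⟩
      have hpZ : Prod.map e e p ∈ Z := by rw [← g4]; exact ⟨p, hp, rfl⟩
      have h5 : e p.1 ∈ Prod.snd '' Z := by rw [← h4]; exact ⟨_, hpZ, rfl⟩
      obtain ⟨w, hw, hw2⟩ := h5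
      rw [← g4] at hw
      obtain ⟨q, hq, rfl⟩ := hw
      exact ⟨q, hq, hinj (g1 hq).2 (g1 hp).1 hw2⟩
    · rintro _ ⟨p, hp, rfl⟩
      have hpZ : Prod.map e e p ∈ Z := by rw [← g4]; exact ⟨p, hp, rfl⟩
      have h5 : e p.2 ∈ Prod.fst '' Z := by rw [h4]; exact ⟨_, hpZ, rfl⟩
      obtain ⟨w, hw, hw2⟩ := h5
      rw [← g4] at hw
      obtain ⟨q, hq, rfl⟩ := hw
      exact ⟨q, hq, hinj (g1 hq).1 (g1 hp).2 hw2⟩
  obtain ⟨i, hi1, hi2⟩ := common_gate Y g1 g2 g3 (by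
    intro p hp heq
    have := hd p hp
    rw [heq, dist_self] at this
    linarith) hproj
  obtain ⟨W, w1, w2, w3, w4, w5, w6⟩ := sym_of_gate e he _ hgate Y g1 g2 g3 hd i hi1 hi2
  exact absurd (from_sym e he hinj _ hc W w4 w2 w6 w5) (not_le.2 hlt2)

theorem all (X : Set ℂ) (hX : IsSimpleTriod X) :
    symSpan X ≤ surjSpan X ∧ surjSpan X ≤ span X := by
  obtain ⟨e, he, hinj, rfl⟩ := hX
  exact ⟨sym_le_surj e he hinj, surj_le_span e he⟩

theorem all2 (e : (Fin 3 → ℝ) → ℂ) (he : ContinuousOn e T3) (hinj : InjOn e T3)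
    (hgate : ∀ (i : Fin 3) (r : ℝ),
      IsPreconnected {t : ℝ | t ∈ Icc (0:ℝ) 1 ∧ r ≤ dist (e (Pi.single i t)) (e 0)}) :
    surjSpan (e '' T3) = span (e '' T3) := by
  by_contra hne
  obtain ⟨i, r, _, _, h⟩ := gate_of_lt e he hinj
    (lt_of_le_of_ne (surj_le_span e he) hne)
  exact h (hgate i r)

end Pool.Agent.Helper787.Triod
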