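import Pool.Agent.Helper787.Triod.Parts2
set_option autoImplicit false

namespace Pool.Agent.Helper787.Triod

open Set Topology

theorem pos_chain (e : (Fin 3 → ℝ) → ℂ) (he : ContinuousOn e T3) (hinj : InjOn e T3) :
    0 < symSpan (e '' T3) ∧ symSpan (e '' T3) ≤ surjSpan (e '' T3) ∧
      surjSpan (e '' T3) ≤ span (e '' T3) :=
  ⟨sym_pos e he hinj, sym_le_surj e he hinj, surj_le_span e he⟩

theorem ivt_main (e : (Fin 3 → ℝ) → ℂ) (he : ContinuousOn e T3) (hinj : InjOn e T3)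
    (a : ℝ) (ha : 0 < a) (ha1 : a ≤ 1) (u : Fin 3 → ℂ)
    (hu : ∀ (i : Fin 3), ∀ t ∈ Icc (0:ℝ) a, e (Pi.single i t) = e 0 + (t:ℂ) * u i)
    (t : ℝ) (ht : surjSpan (e '' T3) / span (e '' T3) ≤ t) (ht1 : t ≤ 1) :
    ∃ X : Set ℂ, IsSimpleTriod X ∧ surjSpan X / span X = t := by
  obtain ⟨hc, hs, hj⟩ := cont e he hinj a ha
  have hpos : ∀ l ∈ Icc a 1, 0 < span ((fun p => e (l • p)) '' T3) := by
    intro l hl
    obtain ⟨h1, h2, h3⟩ := pos_chain (fun p => e (l • p)) (hc l hl).1 (hc l hl).2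
    linarith
  have hF : ContinuousOn (fun l : ℝ => surjSpan ((fun p => e (l • p)) '' T3) /
      span ((fun p => e (l • p)) '' T3)) (Icc a 1) :=
    hj.div hs (fun l hl => (hpos l hl).ne')
  have hFa : surjSpan ((fun p => e (a • p)) '' T3) / span ((fun p => e (a • p)) '' T3) = 1 := by
    have haI : a ∈ Icc a 1 := ⟨le_refl a, ha1⟩
    rw [all2 (fun p => e (a • p)) (hc a haI).1 (hc a haI).2 (straight e a ha ha1 u hu)]
    exact div_self (hpos a haI).ne'
  have hF1 : surjSpan ((fun p => e ((1:ℝ) • p)) '' T3) / span ((fun p => e ((1:ℝ) • p)) '' T3) =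
      surjSpan (e '' T3) / span (e '' T3) := by
    simp only [one_smul]
  have hiv := intermediate_value_Icc' ha1 hF
  have htm : t ∈ Icc (surjSpan ((fun p => e ((1:ℝ) • p)) '' T3) /
      span ((fun p => e ((1:ℝ) • p)) '' T3))
      (surjSpan ((fun p => e (a • p)) '' T3) / span ((fun p => e (a • p)) '' T3)) := by
    rw [hF1, hFa]
    exact ⟨ht, ht1⟩
  obtain ⟨l, hl, hlt⟩ := hiv htm
  exact ⟨_, ⟨fun p => e (l • p), (hc l hl).1, (hc l hl).2, rfl⟩, hlt⟩

end Pool.Agent.Helper787.Triod
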