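import Pool.Agent.Helper787.Triod.LogH
set_option autoImplicit false

namespace Pool.Agent.Helper787.Triod

open Set Topology

/-- the contraction of the triod to the tip `i` -/
noncomputable def G (i : Fin 3) (x : (Fin 3 → ℝ) × ℝ) : Fin 3 → ℝ :=
  (max (1 - 2 * x.2) 0) • x.1 + (max (2 * x.2 - 1) 0) • (Pi.single i (1:ℝ) : Fin 3 → ℝ)

theorem G_cont (i : Fin 3) : Continuous (G i) := by
  unfold G
  fun_prop

theorem smul_mem_T3 {p : Fin 3 → ℝ} (hp : p ∈ T3) {a : ℝ} (h0 : 0 ≤ a) (h1 : a ≤ 1) :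
    a • p ∈ T3 := by
  refine ⟨fun i => ⟨mul_nonneg h0 (hp.1 i).1, ?_⟩, fun i j hij => ?_⟩
  · calc a * p i ≤ 1 * 1 := mul_le_mul h1 (hp.1 i).2 (hp.1 i).1 zero_le_one
      _ = 1 := one_mul 1
  · rcases hp.2 i j hij with h | h
    · left; simp [h]
    · right; simp [h]

theorem single_mem_T3 (i : Fin 3) {t : ℝ} (ht : t ∈ Icc (0:ℝ) 1) :
    (Pi.single i t : Fin 3 → ℝ) ∈ T3 := by
  refine ⟨fun j => ?_, fun j k hjk => ?_⟩
  · by_cases h : j = i
    · subst h; simpa using ht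
    · simp [Pi.single_apply, h]
  · by_cases h : j = i
    · right
      have : k ≠ i := fun hk => hjk (h.trans hk.symm)
      simp [Pi.single_apply, this]
    · left; simp [Pi.single_apply, h]

theorem G_mem (i : Fin 3) {p : Fin 3 → ℝ} (hp : p ∈ T3) {r : ℝ} (hr : r ∈ Icc (0:ℝ) 1) :
    G i (p, r) ∈ T3 := by
  rcases le_total r (1/2) with h | h
  · have h1 : max (2 * r - 1) 0 = 0 := max_eq_right (by linarith)
    have h2 : max (1 - 2 * r) 0 = 1 - 2 * r := max_eq_left (by linarith)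
    simp only [G, h1, h2, zero_smul, add_zero]
    exact smul_mem_T3 hp (by linarith) (by linarith [hr.1])
  · have h1 : max (2 * r - 1) 0 = 2 * r - 1 := max_eq_left (by linarith)
    have h2 : max (1 - 2 * r) 0 = 0 := max_eq_right (by linarith)
    simp only [G, h1, h2, zero_smul, zero_add]
    exact smul_mem_T3 (single_mem_T3 i ⟨zero_le_one, le_refl 1⟩) (by linarith) (by linarith [hr.2])

theorem G_zero (i : Fin 3) (p : Fin 3 → ℝ) : G i (p, 0) = p := by
  simp [G]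

theorem G_one (i : Fin 3) (p : Fin 3 → ℝ) : G i (p, 1) = Pi.single i 1 := by
  have h1 : max ((2:ℝ) * 1 - 1) 0 = 1 := by norm_num
  have h2 : max ((1:ℝ) - 2 * 1) 0 = 0 := by norm_num
  simp only [G, h1, h2, zero_smul, zero_add, one_smul]

theorem tip_log (e : (Fin 3 → ℝ) → ℂ) (he : ContinuousOn e T3) (hinj : InjOn e T3)
    (K : Set ((Fin 3 → ℝ) × (Fin 3 → ℝ))) (hKT : K ⊆ T3 ×ˢ T3) (hK : IsCompact K)
    (i : Fin 3) (htip : ∀ p ∈ K, p.1 ≠ Pi.single i 1) :
    ∃ l : (Fin 3 → ℝ) × (Fin 3 → ℝ) → ℂ, ContinuousOn l K ∧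
      ∀ p ∈ K, Complex.exp (l p) = e p.1 - e (Pi.single i 1) := by
  have htipT : (Pi.single i (1:ℝ) : Fin 3 → ℝ) ∈ T3 := single_mem_T3 i ⟨zero_le_one, le_refl 1⟩
  have h := log_homotopy K hK
    (fun x : ((Fin 3 → ℝ) × (Fin 3 → ℝ)) × ℝ => e ((1 - x.2) • x.1.1) - e (Pi.single i 1))
    ?_ ?_ ?_
  · obtain ⟨l, hl, hl2⟩ := h
    refine ⟨l, hl, fun p hp => ?_⟩
    rw [hl2 p hp]
    simp
  · apply ContinuousOn.sub _ continuousOn_const
    apply he.comp (by fun_prop)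
    rintro ⟨p, r⟩ ⟨hp, hr⟩
    exact smul_mem_T3 (hKT hp).1 (by linarith [hr.2]) (by linarith [hr.1])
  · intro p hp r hr h0
    have hm : ((1 - r) • p.1) ∈ T3 := smul_mem_T3 (hKT hp).1 (by linarith [hr.2]) (by linarith [hr.1])
    have heq : ((1 - r) • p.1) = Pi.single i 1 := hinj hm htipT (sub_eq_zero.1 h0)
    have hi := congrFun heq i
    simp only [Pi.smul_apply, smul_eq_mul, Pi.single_eq_same] at hi
    have hp1 := ((hKT hp).1).1 i
    have hr0 : r = 0 := by nlinarith [hr.1, hr.2, hp1.1, hp1.2]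
    subst hr0
    simp only [sub_zero, one_smul] at heq
    exact htip p hp heq
  · refine ⟨fun _ => Complex.log (e 0 - e (Pi.single i 1)), continuousOn_const, fun p hp => ?_⟩
    have h0T : (0 : Fin 3 → ℝ) ∈ T3 := by
      have := smul_mem_T3 htipT (le_refl 0) zero_le_one
      simpa using this
    have hne : e 0 - e (Pi.single i 1) ≠ 0 := by
      intro h0
      have heq := hinj h0T htipT (sub_eq_zero.1 h0)
      have := congrFun heq i
      simp at this
    rw [Complex.exp_log hne]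
    simp

theorem klemma (e : (Fin 3 → ℝ) → ℂ) (he : ContinuousOn e T3) (hinj : InjOn e T3)
    (c : ℝ) (hc : 0 < c)
    (K : Set ((Fin 3 → ℝ) × (Fin 3 → ℝ))) (hKT : K ⊆ T3 ×ˢ T3) (hK : IsCompact K)
    (hd : ∀ p ∈ K, c ≤ dist (e p.1) (e p.2))
    (hrest : IsClosed ({p : (Fin 3 → ℝ) × (Fin 3 → ℝ) | p ∈ T3 ×ˢ T3 ∧
      c ≤ dist (e p.1) (e p.2)} \ K))
    (i : Fin 3) (htip : ∀ p ∈ K, p.1 ≠ Pi.single i 1) :
    ∃ l : (Fin 3 → ℝ) × (Fin 3 → ℝ) → ℂ, ContinuousOn l K ∧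
      ∀ p ∈ K, Complex.exp (l p) = e p.1 - e p.2 := by
  set A : Set ((Fin 3 → ℝ) × (Fin 3 → ℝ)) :=
    ({p : (Fin 3 → ℝ) × (Fin 3 → ℝ) | p ∈ T3 ×ˢ T3 ∧ c ≤ dist (e p.1) (e p.2)} \ K) ∪
      {p | p.1 = Pi.single i 1} with hA
  have hAc : IsClosed A := hrest.union (isClosed_eq continuous_fst continuous_const)
  have hdisj : Disjoint A K := by
    rw [Set.disjoint_left]
    rintro p (hp | hp) hpK
    · exact hp.2 hpK
    · exact htip p hpK hp
  obtain ⟨h, h0, h1, h01⟩ := exists_continuous_zero_one_of_isClosed hAc hK.isClosed hdisj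
  have hgoal := log_homotopy K hK
    (fun x : ((Fin 3 → ℝ) × (Fin 3 → ℝ)) × ℝ =>
      e x.1.1 - (((h (G i (x.1.1, x.2), x.1.2) : ℝ) : ℂ) * e x.1.2 +
        (1 - ((h (G i (x.1.1, x.2), x.1.2) : ℝ) : ℂ)) * e (G i (x.1.1, x.2)))) ?_ ?_ ?_
  · obtain ⟨l, hl, hl2⟩ := hgoal
    refine ⟨l, hl, fun p hp => ?_⟩
    rw [hl2 p hp]
    have hh : h (p.1, p.2) = 1 := h1 hp
    simp only [G_zero, hh]
    simp
  · have hGc : Continuous fun x : ((Fin 3 → ℝ) × (Fin 3 → ℝ)) × ℝ => G i (x.1.1, x.2) :=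
      (G_cont i).comp (by fun_prop)
    have hhc : Continuous fun x : ((Fin 3 → ℝ) × (Fin 3 → ℝ)) × ℝ =>
        ((h (G i (x.1.1, x.2), x.1.2) : ℝ) : ℂ) :=
      Complex.continuous_ofReal.comp (h.continuous.comp (hGc.prodMk (by fun_prop)))
    have he1 : ContinuousOn (fun x : ((Fin 3 → ℝ) × (Fin 3 → ℝ)) × ℝ => e x.1.1)
        (K ×ˢ Icc (0:ℝ) 1) := by
      apply he.comp (by fun_prop)
      rintro ⟨p, r⟩ ⟨hp, hr⟩
      exact (hKT hp).1
    have he2 : ContinuousOn (fun x : ((Fin 3 → ℝ) × (Fin 3 → ℝ)) × ℝ => e x.1.2)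
        (K ×ˢ Icc (0:ℝ) 1) := by
      apply he.comp (by fun_prop)
      rintro ⟨p, r⟩ ⟨hp, hr⟩
      exact (hKT hp).2
    have he3 : ContinuousOn (fun x : ((Fin 3 → ℝ) × (Fin 3 → ℝ)) × ℝ => e (G i (x.1.1, x.2)))
        (K ×ˢ Icc (0:ℝ) 1) := by
      apply he.comp hGc.continuousOn
      rintro ⟨p, r⟩ ⟨hp, hr⟩
      exact G_mem i (hKT hp).1 hr
    exact he1.sub ((hhc.continuousOn.mul he2).add
      ((continuousOn_const.sub hhc.continuousOn).mul he3))
  · intro p hp r hr hF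
    have hgT : G i (p.1, r) ∈ T3 := G_mem i (hKT hp).1 hr
    have hqT : p.2 ∈ T3 := (hKT hp).2
    have hpT : p.1 ∈ T3 := (hKT hp).1
    have hdp := hd p hp
    simp only at hF
    set g := G i (p.1, r) with hg
    set t := h (g, p.2) with ht
    have ht01 : t ∈ Icc (0:ℝ) 1 := h01 _
    by_cases hE : c ≤ dist (e g) (e p.2)
    · by_cases hgK : (g, p.2) ∈ K
      · have : t = 1 := h1 hgK
        rw [this] at hF
        simp only [Complex.ofReal_one, one_mul, sub_self, zero_mul, add_zero] at hF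
        rw [sub_eq_zero] at hF
        rw [hF, dist_self] at hdp
        linarith
      · have : t = 0 := h0 (Or.inl ⟨⟨⟨hgT, hqT⟩, hE⟩, hgK⟩)
        rw [this] at hF
        simp only [Complex.ofReal_zero, zero_mul, sub_zero, one_mul, zero_add] at hF
        have hpg : p.1 = g := hinj hpT hgT (sub_eq_zero.1 hF)
        apply hgK
        rw [← hpg]
        exact hp
    · push_neg at hE
      have h1' : e p.1 - e p.2 = (1 - (t:ℂ)) * (e g - e p.2) := by
        linear_combination hF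
      have h2' : dist (e p.1) (e p.2) ≤ dist (e g) (e p.2) := by
        rw [dist_eq_norm, dist_eq_norm, h1', norm_mul]
        have : ‖(1 - (t:ℂ))‖ ≤ 1 := by
          have : (1 - (t:ℂ)) = ((1 - t : ℝ) : ℂ) := by push_cast; ring
          rw [this, Complex.norm_real, Real.norm_eq_abs, abs_le]
          constructor <;> linarith [ht01.1, ht01.2]
        calc ‖(1 - (t:ℂ))‖ * ‖e g - e p.2‖ ≤ 1 * ‖e g - e p.2‖ :=
              mul_le_mul_of_nonneg_right this (norm_nonneg _)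
          _ = _ := one_mul _
      linarith
  · obtain ⟨l, hl, hl2⟩ := tip_log e he hinj K hKT hK i htip
    refine ⟨l, hl, fun p hp => ?_⟩
    rw [hl2 p hp]
    have hh : h ((Pi.single i (1:ℝ) : Fin 3 → ℝ), p.2) = 0 := h0 (Or.inr rfl)
    simp only [G_one, hh]
    simp

end Pool.Agent.Helper787.Triod
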