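import Pool.Agent.Helper787.Triod.Defs
set_option autoImplicit false

namespace Pool.Agent.Helper787.Triod

open Set Topology


theorem log_homotopy {E : Type*} [PseudoMetricSpace E] (K : Set E) (hK : IsCompact K)
    (F : E × ℝ → ℂ) (hF : ContinuousOn F (K ×ˢ Icc (0:ℝ) 1))
    (hne : ∀ p ∈ K, ∀ r ∈ Icc (0:ℝ) 1, F (p, r) ≠ 0)
    (h1 : ∃ l : E → ℂ, ContinuousOn l K ∧ ∀ p ∈ K, Complex.exp (l p) = F (p, 1)) :
    ∃ l : E → ℂ, ContinuousOn l K ∧ ∀ p ∈ K, Complex.exp (l p) = F (p, 0) := by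
  rcases K.eq_empty_or_nonempty with rfl | hKne
  · exact ⟨fun _ => 0, continuousOn_empty _, fun p hp => absurd hp (notMem_empty p)⟩
  have hcomp : IsCompact (K ×ˢ Icc (0:ℝ) 1) := hK.prod isCompact_Icc
  have hne' : (K ×ˢ Icc (0:ℝ) 1).Nonempty := hKne.prod ⟨0, by simp⟩
  obtain ⟨q0, hq0, hmin⟩ := hcomp.exists_isMinOn hne' hF.norm
  have hd : 0 < ‖F q0‖ := norm_pos_iff.2 (hne q0.1 hq0.1 q0.2 hq0.2)
  have hdle : ∀ q ∈ K ×ˢ Icc (0:ℝ) 1, ‖F q0‖ ≤ ‖F q‖ := fun q hq => hmin hq
  have huc := hcomp.uniformContinuousOn_of_continuous hF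
  rw [Metric.uniformContinuousOn_iff] at huc
  obtain ⟨δ, hδ, hδ'⟩ := huc ‖F q0‖ hd
  obtain ⟨N, hN⟩ := exists_nat_one_div_lt hδ
  have hN0 : (0:ℝ) < (N:ℝ) + 1 := by positivity
  have key : ∀ k : ℕ, k ≤ N + 1 → ∃ l : E → ℂ, ContinuousOn l K ∧
      ∀ p ∈ K, Complex.exp (l p) = F (p, 1 - (k:ℝ) / ((N:ℝ) + 1)) := by
    intro k
    induction k with
    | zero =>
      intro _
      obtain ⟨l, hl, hl'⟩ := h1
      refine ⟨l, hl, fun p hp => ?_⟩
      rw [hl' p hp]
      simp
    | succ k ih =>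
      intro hk
      obtain ⟨l, hl, hl'⟩ := ih (by omega)
      have hkN : (k:ℝ) + 1 ≤ (N:ℝ) + 1 := by exact_mod_cast hk
      have hk0 : (0:ℝ) ≤ (k:ℝ) := Nat.cast_nonneg k
      have hr : (1 - (k:ℝ) / ((N:ℝ) + 1)) ∈ Icc (0:ℝ) 1 := by
        constructor
        · rw [sub_nonneg, div_le_one hN0]; linarith
        · have : 0 ≤ (k:ℝ) / ((N:ℝ) + 1) := by positivity
          linarith
      have hr2 : (1 - ((k:ℝ) + 1) / ((N:ℝ) + 1)) ∈ Icc (0:ℝ) 1 := by
        constructor
        · rw [sub_nonneg, div_le_one hN0]; linarith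
        · have : 0 ≤ ((k:ℝ) + 1) / ((N:ℝ) + 1) := by positivity
          linarith
      set r : ℝ := 1 - (k:ℝ) / ((N:ℝ) + 1) with hrdef
      set r2 : ℝ := 1 - ((k:ℝ) + 1) / ((N:ℝ) + 1) with hr2def
      have hdist : |r2 - r| < δ := by
        have h2 : r2 - r = -(1 / ((N:ℝ) + 1)) := by
          rw [hrdef, hr2def]
          field_simp
          ring
        rw [h2, abs_neg, abs_of_pos (by positivity)]
        exact hN
      have hc : ∀ s ∈ Icc (0:ℝ) 1, ContinuousOn (fun p => F (p, s)) K := by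
        intro s hs
        exact hF.comp (by fun_prop) (fun p hp => ⟨hp, hs⟩)
      have hslit : ∀ p ∈ K, F (p, r2) / F (p, r) ∈ Complex.slitPlane := by
        intro p hp
        have hn := hne p hp r hr
        have h3 : F (p, r2) / F (p, r) = 1 + (F (p, r2) - F (p, r)) / F (p, r) := by
          field_simp
          ring
        rw [h3]
        apply Complex.mem_slitPlane_of_norm_lt_one
        rw [norm_div, div_lt_one (norm_pos_iff.2 hn)]
        have h4 : dist (F (p, r2)) (F (p, r)) < ‖F q0‖ := by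
          apply hδ' (p, r2) ⟨hp, hr2⟩ (p, r) ⟨hp, hr⟩
          rw [Prod.dist_eq, dist_self, Real.dist_eq]
          exact max_lt hδ hdist
        rw [dist_eq_norm] at h4
        exact h4.trans_le (hdle (p, r) ⟨hp, hr⟩)
      refine ⟨fun p => l p + Complex.log (F (p, r2) / F (p, r)), ?_, ?_⟩
      · exact hl.add (((hc r2 hr2).div (hc r hr) (fun p hp => hne p hp r hr)).clog hslit)
      · intro p hp
        have hn := hne p hp r hr
        have hn2 := hne p hp r2 hr2
        rw [Complex.exp_add, hl' p hp, Complex.exp_log (div_ne_zero hn2 hn)]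
        push_cast
        rw [← hr2def]
        field_simp
  obtain ⟨l, hl, hl'⟩ := key (N + 1) le_rfl
  refine ⟨l, hl, fun p hp => ?_⟩
  rw [hl' p hp]
  congr 2
  push_cast
  rw [div_self hN0.ne']
  ring




theorem odd_no_log {E : Type*} [TopologicalSpace E] (Z : Set (E × E)) (hZ : IsConnected Z)
    (hsw : Prod.swap '' Z = Z) (f : E × E → ℂ) (hodd : ∀ p ∈ Z, f p.swap = - f p) :
    ¬ ∃ l : E × E → ℂ, ContinuousOn l Z ∧ ∀ p ∈ Z, Complex.exp (l p) = f p := by
  rintro ⟨l, hl, hexp⟩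
  have hswZ : ∀ p ∈ Z, p.swap ∈ Z := by
    intro p hp
    rw [← hsw]
    exact ⟨p, hp, rfl⟩
  have hcont : ContinuousOn (fun p : E × E => (l p.swap - l p).im) Z := by
    apply Complex.continuous_im.comp_continuousOn
    apply ContinuousOn.sub _ hl
    exact hl.comp continuous_swap.continuousOn hswZ
  obtain ⟨p0, hp0⟩ := hZ.nonempty
  have hord := (hZ.isPreconnected.image _ hcont).ordConnected
  have h0 : (0 : ℝ) ∈ (fun p : E × E => (l p.swap - l p).im) '' Z := by
    apply hord.uIcc_subset ⟨p0, hp0, rfl⟩ ⟨p0.swap, hswZ p0 hp0, rfl⟩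
    rw [Set.mem_uIcc]
    simp only [Prod.swap_swap, Complex.sub_im]
    rcases le_total ((l p0.swap).im - (l p0).im) 0 with h | h
    · left
      constructor <;> linarith
    · right
      constructor <;> linarith
  obtain ⟨p, hp, him⟩ := h0
  have h1 := hexp p hp
  have h2 := hexp p.swap (hswZ p hp)
  rw [hodd p hp, ← h1] at h2
  have h3 : Complex.exp (l p) ≠ 0 := Complex.exp_ne_zero _
  have h4 : Complex.exp (l p.swap - l p) = -1 := by
    rw [Complex.exp_sub, h2, neg_div, div_self h3]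
  have h5 : (Complex.exp (l p.swap - l p)).re = -1 := by rw [h4]; simp
  rw [Complex.exp_re] at h5
  have him' : (l p.swap - l p).im = 0 := him
  rw [him', Real.cos_zero, mul_one] at h5
  have h6 := Real.exp_pos (l p.swap - l p).re
  linarith





theorem sep_clopen {E : Type*} [TopologicalSpace E] [T2Space E] (S : Set E) (hS : IsCompact S)
    (x : E) (hx : x ∈ S) (D : Set E) (hD : IsClosed D)
    (hdisj : Disjoint (connectedComponentIn S x) D) :
    ∃ K : Set E, K ⊆ S ∧ IsCompact K ∧ IsCompact (S \ K) ∧ connectedComponentIn S x ⊆ K ∧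
      Disjoint K D := by
  haveI : CompactSpace S := isCompact_iff_compactSpace.1 hS
  have hD' : IsCompact ((Subtype.val : S → E) ⁻¹' D) :=
    (hD.preimage continuous_subtype_val).isCompact
  have hC := connectedComponentIn_eq_image hx
  have hI := connectedComponent_eq_iInter_isClopen (X := S) ⟨x, hx⟩
  have hempty : ((Subtype.val : S → E) ⁻¹' D) ∩
      ⋂ s : { s : Set S // IsClopen s ∧ (⟨x, hx⟩ : S) ∈ s }, (s : Set S) = ∅ := by
    rw [← hI]
    ext y
    simp only [mem_inter_iff, mem_preimage, mem_empty_iff_false, iff_false, not_and]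
    intro hyD hy
    have h1 : (y : E) ∈ connectedComponentIn S x := by
      rw [hC]; exact ⟨y, hy, rfl⟩
    exact Set.disjoint_left.1 hdisj h1 hyD
  obtain ⟨u, hu⟩ := hD'.elim_finite_subfamily_closed
    (fun s : { s : Set S // IsClopen s ∧ (⟨x, hx⟩ : S) ∈ s } => (s : Set S))
    (fun s => s.2.1.isClosed) hempty
  set U : Set S := ⋂ i ∈ u, (i : Set S) with hU
  have hUc : IsClopen U := isClopen_biInter_finset (fun i _ => i.2.1)
  refine ⟨Subtype.val '' U, ?_, ?_, ?_, ?_, ?_⟩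
  · rintro _ ⟨y, _, rfl⟩; exact y.2
  · exact hUc.isClosed.isCompact.image continuous_subtype_val
  · have : S \ (Subtype.val '' U) = Subtype.val '' Uᶜ := by
      ext y
      constructor
      · rintro ⟨hy, hn⟩
        exact ⟨⟨y, hy⟩, fun h => hn ⟨⟨y, hy⟩, h, rfl⟩, rfl⟩
      · rintro ⟨z, hz, rfl⟩
        refine ⟨z.2, ?_⟩
        rintro ⟨w, hw, hwz⟩
        exact hz (Subtype.ext hwz ▸ hw)
    rw [this]
    exact hUc.compl.isClosed.isCompact.image continuous_subtype_val
  · rw [hC, hI]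
    apply Set.image_mono
    intro y hy
    rw [hU]
    simp only [mem_iInter] at hy ⊢
    intro i _
    exact hy i
  · rw [Set.disjoint_left]
    rintro _ ⟨y, hy, rfl⟩ hyD
    have : y ∈ ((Subtype.val : S → E) ⁻¹' D) ∩ U := ⟨hyD, hy⟩
    rw [hU, hu] at this
    exact this



end Pool.Agent.Helper787.Triod
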