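import Pool.Agent.Helper787.Triod.Final
set_option autoImplicit false

namespace Pool.Agent.Helper787.Triod

open Set Topology


theorem sc_core (e f : (Fin 3 → ℝ) → ℂ) (he : ContinuousOn e T3) (hinj : InjOn e T3)
    (hf : ContinuousOn f T3) (d : ℝ)
    (hd : ∀ p ∈ T3, dist (e p) (f p) ≤ d) (Z : Set (ℂ × ℂ)) (hZk : IsCompact Z) (hZ : IsConnected Z)
    (hZX : Z ⊆ (e '' T3) ×ˢ (e '' T3)) :
    ∃ Y : Set ((Fin 3 → ℝ) × (Fin 3 → ℝ)), Y ⊆ T3 ×ˢ T3 ∧ Prod.map e e '' Y = Z ∧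
      IsCompact (Prod.map f f '' Y) ∧ IsConnected (Prod.map f f '' Y) ∧
      Prod.map f f '' Y ⊆ (f '' T3) ×ˢ (f '' T3) ∧
      Prod.fst '' Z = e '' (Prod.fst '' Y) ∧ Prod.snd '' Z = e '' (Prod.snd '' Y) ∧
      Prod.fst '' (Prod.map f f '' Y) = f '' (Prod.fst '' Y) ∧
      Prod.snd '' (Prod.map f f '' Y) = f '' (Prod.snd '' Y) ∧
      sInf ((fun z : ℂ × ℂ => dist z.1 z.2) '' Z) ≤
        sInf ((fun z : ℂ × ℂ => dist z.1 z.2) '' (Prod.map f f '' Y)) + 2 * d := by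
  obtain ⟨Y, hYT, hYk, hYc, hYZ, -⟩ := transfer e he hinj Z hZk hZ hZX
  have hfc : ContinuousOn (Prod.map f f) Y := (hf.prodMap hf).mono hYT
  refine ⟨Y, hYT, hYZ, hYk.image_of_continuousOn hfc, hYc.image _ hfc, ?_, ?_, ?_, ?_, ?_, ?_⟩
  · rintro _ ⟨p, hp, rfl⟩
    exact ⟨⟨p.1, (hYT hp).1, rfl⟩, ⟨p.2, (hYT hp).2, rfl⟩⟩
  · rw [← hYZ, Set.image_image, Set.image_image]; rfl
  · rw [← hYZ, Set.image_image, Set.image_image]; rfl
  · rw [Set.image_image, Set.image_image]; rfl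
  · rw [Set.image_image, Set.image_image]; rfl
  · rw [← sub_le_iff_le_add]
    apply le_csInf
    · exact ((hYc.nonempty.image _).image _)
    · rintro _ ⟨_, ⟨p, hp, rfl⟩, rfl⟩
      have h1 : sInf ((fun z : ℂ × ℂ => dist z.1 z.2) '' Z) ≤ dist (e p.1) (e p.2) := by
        apply csInf_le
        · refine ⟨0, ?_⟩
          rintro _ ⟨z, hz, rfl⟩
          exact dist_nonneg
        · exact ⟨(e p.1, e p.2), by rw [← hYZ]; exact ⟨p, hp, rfl⟩, rfl⟩
      have h2 := hd p.1 (hYT hp).1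
      have h3 := hd p.2 (hYT hp).2
      have h4 : dist (e p.1) (e p.2) ≤ dist (e p.1) (f p.1) + dist (f p.1) (f p.2) + dist (f p.2) (e p.2) :=
        dist_triangle4 _ _ _ _
      rw [dist_comm (f p.2) (e p.2)] at h4
      simp only [Prod.map_fst, Prod.map_snd]
      linarith

theorem span_close (e f : (Fin 3 → ℝ) → ℂ) (he : ContinuousOn e T3) (hinj : InjOn e T3)
    (hf : ContinuousOn f T3) (hinjf : InjOn f T3) (d : ℝ)
    (hd : ∀ p ∈ T3, dist (e p) (f p) ≤ d) :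
    span (e '' T3) ≤ span (f '' T3) + 2 * d ∧
      surjSpan (e '' T3) ≤ surjSpan (f '' T3) + 2 * d := by
  have hek : IsCompact (e '' T3) := T3_compact.image_of_continuousOn he
  have hec : IsConnected (e '' T3) := T3_connected.image _ he
  have hfk : IsCompact (f '' T3) := T3_compact.image_of_continuousOn hf
  constructor
  · apply csSup_le ⟨0, surj_sub (zero_mem_surj hek hec)⟩
    rintro c ⟨Z, hZk, hZ, hZX, hpr, rfl⟩
    obtain ⟨Y, hYT, hYZ, hk, hc, hs, h1, h2, h3, h4, h5⟩ := sc_core e f he hinj hf d hd Z hZk hZ hZX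
    have hY : Prod.fst '' Y = Prod.snd '' Y := by
      have h6 : e '' (Prod.fst '' Y) = e '' (Prod.snd '' Y) := by rw [← h1, ← h2, hpr]
      refine (hinj.image_eq_image_iff ?_ ?_).1 h6
      · rintro _ ⟨p, hp, rfl⟩; exact (hYT hp).1
      · rintro _ ⟨p, hp, rfl⟩; exact (hYT hp).2
    refine h5.trans ?_
    gcongr
    exact le_csSup (span_bdd hfk) ⟨_, hk, hc, hs, by rw [h3, h4, hY], rfl⟩
  · apply csSup_le ⟨0, zero_mem_surj hek hec⟩
    rintro c ⟨Z, hZk, hZ, hZX, hp1, hp2, rfl⟩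
    obtain ⟨Y, hYT, hYZ, hk, hc, hs, h1, h2, h3, h4, h5⟩ := sc_core e f he hinj hf d hd Z hZk hZ hZX
    have hs1 : Prod.fst '' Y ⊆ T3 := by rintro _ ⟨p, hp, rfl⟩; exact (hYT hp).1
    have hs2 : Prod.snd '' Y ⊆ T3 := by rintro _ ⟨p, hp, rfl⟩; exact (hYT hp).2
    have hY1 : Prod.fst '' Y = T3 := (hinj.image_eq_image_iff hs1 Subset.rfl).1 (by rw [← h1, hp1])
    have hY2 : Prod.snd '' Y = T3 := (hinj.image_eq_image_iff hs2 Subset.rfl).1 (by rw [← h2, hp2])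
    refine h5.trans ?_
    gcongr
    exact le_csSup (surj_bdd hfk) ⟨_, hk, hc, hs, by rw [h3, hY1], by rw [h4, hY2], rfl⟩




theorem norm_T3 {p : Fin 3 → ℝ} (hp : p ∈ T3) : ‖p‖ ≤ 1 := by
  rw [pi_norm_le_iff_of_nonneg (by norm_num)]
  intro i
  rw [Real.norm_eq_abs, abs_of_nonneg (hp.1 i).1]
  exact (hp.1 i).2

theorem cont_one (e : (Fin 3 → ℝ) → ℂ) (he : ContinuousOn e T3) (hinj : InjOn e T3)
    (a : ℝ) (ha : 0 < a) (l : ℝ) (hl : l ∈ Icc a 1) :
    ContinuousOn (fun p => e (l • p)) T3 ∧ InjOn (fun p => e (l • p)) T3 := by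
  have hl0 : 0 < l := lt_of_lt_of_le ha hl.1
  have hmap : MapsTo (fun p : Fin 3 → ℝ => l • p) T3 T3 := fun p hp => smul_mem_T3 hp hl0.le hl.2
  constructor
  · exact he.comp (Continuous.continuousOn (by fun_prop)) hmap
  · intro p hp q hq h
    have h1 : l • p = l • q := hinj (hmap hp) (hmap hq) h
    exact smul_right_injective _ hl0.ne' h1

theorem cont_key (e : (Fin 3 → ℝ) → ℂ) (he : ContinuousOn e T3) (hinj : InjOn e T3)
    (a : ℝ) (ha : 0 < a) (ε : ℝ) (hε : 0 < ε) : ∃ δ > 0, ∀ l ∈ Icc a 1, ∀ m ∈ Icc a 1, dist l m < δ →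
      dist (span ((fun p => e (l • p)) '' T3)) (span ((fun p => e (m • p)) '' T3)) < ε ∧
      dist (surjSpan ((fun p => e (l • p)) '' T3)) (surjSpan ((fun p => e (m • p)) '' T3)) < ε := by
  have hu := T3_compact.uniformContinuousOn_of_continuous he
  rw [Metric.uniformContinuousOn_iff] at hu
  obtain ⟨δ, hδ, h⟩ := hu (ε / 4) (by positivity)
  refine ⟨δ, hδ, ?_⟩
  have main : ∀ l ∈ Icc a 1, ∀ m ∈ Icc a 1, dist l m < δ →
      span ((fun p => e (l • p)) '' T3) ≤ span ((fun p => e (m • p)) '' T3) + ε / 2 ∧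
      surjSpan ((fun p => e (l • p)) '' T3) ≤ surjSpan ((fun p => e (m • p)) '' T3) + ε / 2 := by
    intro l hl m hm hd
    obtain ⟨c1, i1⟩ := cont_one e he hinj a ha l hl
    obtain ⟨c2, i2⟩ := cont_one e he hinj a ha m hm
    have h1 := span_close (fun p => e (l • p)) (fun p => e (m • p)) c1 i1 c2 i2 (ε / 4) (by
      intro p hp
      apply le_of_lt
      apply h _ (smul_mem_T3 hp (ha.le.trans hl.1) hl.2) _ (smul_mem_T3 hp (ha.le.trans hm.1) hm.2)
      rw [dist_eq_norm, ← sub_smul, norm_smul]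
      rw [Real.dist_eq] at hd
      calc ‖l - m‖ * ‖p‖ ≤ ‖l - m‖ * 1 := by
            gcongr
            exact norm_T3 hp
        _ = |l - m| := by rw [mul_one, Real.norm_eq_abs]
        _ < δ := hd)
    constructor <;> [have := h1.1; have := h1.2] <;> linarith
  intro l hl m hm hd
  obtain ⟨a1, a2⟩ := main l hl m hm hd
  obtain ⟨b1, b2⟩ := main m hm l hl (by rwa [dist_comm])
  rw [Real.dist_eq, Real.dist_eq, abs_lt, abs_lt]
  refine ⟨⟨by linarith, by linarith⟩, ⟨by linarith, by linarith⟩⟩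

theorem cont (e : (Fin 3 → ℝ) → ℂ) (he : ContinuousOn e T3) (hinj : InjOn e T3)
    (a : ℝ) (ha : 0 < a) :
    (∀ l ∈ Icc a 1, ContinuousOn (fun p => e (l • p)) T3 ∧ InjOn (fun p => e (l • p)) T3) ∧
    ContinuousOn (fun l : ℝ => span ((fun p => e (l • p)) '' T3)) (Icc a 1) ∧
    ContinuousOn (fun l : ℝ => surjSpan ((fun p => e (l • p)) '' T3)) (Icc a 1) := by
  refine ⟨fun l hl => cont_one e he hinj a ha l hl, ?_, ?_⟩
  · rw [Metric.continuousOn_iff]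
    intro m hm ε hε
    obtain ⟨δ, hδ, h⟩ := cont_key e he hinj a ha ε hε
    exact ⟨δ, hδ, fun l hl hd => (h l hl m hm hd).1⟩
  · rw [Metric.continuousOn_iff]
    intro m hm ε hε
    obtain ⟨δ, hδ, h⟩ := cont_key e he hinj a ha ε hε
    exact ⟨δ, hδ, fun l hl hd => (h l hl m hm hd).2⟩




/-- tips of the triod -/
def tip (i : Fin 3) : Fin 3 → ℝ := Pi.single i 1

def AA (i : Fin 3) : Set (Fin 3 → ℝ) := {p | p ∈ T3 ∧ p i = 0}

theorem tip_self (i : Fin 3) : tip i i = 1 := by simp [tip]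

theorem tip_ne {i j : Fin 3} (h : i ≠ j) : tip i j = 0 := by
  unfold tip
  exact Pi.single_eq_of_ne (Ne.symm h) 1

theorem tip_mem (i : Fin 3) : tip i ∈ T3 := by
  refine ⟨?_, ?_⟩
  · intro k
    by_cases hk : i = k
    · subst hk
      rw [tip_self]; norm_num
    · rw [tip_ne hk]; norm_num
  · intro k l hkl
    by_cases hk : i = k
    · right
      exact tip_ne (by rintro rfl; exact hkl hk.symm)
    · left
      exact tip_ne hk

theorem tip_AA {i j : Fin 3} (h : i ≠ j) : tip i ∈ AA j := ⟨tip_mem i, tip_ne h⟩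

theorem AA_compact (i : Fin 3) : IsCompact (AA i) := by
  have : AA i = T3 ∩ {p | p i = 0} := rfl
  rw [this]
  exact T3_compact.inter_right (isClosed_eq (continuous_apply i) continuous_const)

theorem AA_zero (i : Fin 3) : (0 : Fin 3 → ℝ) ∈ AA i := by
  refine ⟨⟨fun k => by simp, fun k l _ => Or.inl rfl⟩, rfl⟩

theorem AA_conn (i : Fin 3) : IsConnected (AA i) := by
  have hs : StarConvex ℝ (0 : Fin 3 → ℝ) (AA i) := by
    rw [starConvex_zero_iff]
    intro p hp a ha0 ha1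
    obtain ⟨⟨h1, h2⟩, h3⟩ := hp
    refine ⟨⟨?_, ?_⟩, ?_⟩
    · intro k
      rw [Pi.smul_apply, smul_eq_mul]
      obtain ⟨h4, h5⟩ := h1 k
      exact ⟨mul_nonneg ha0 h4, by nlinarith⟩
    · intro k l hkl
      rw [Pi.smul_apply, Pi.smul_apply, smul_eq_mul, smul_eq_mul]
      rcases h2 k l hkl with h | h
      · left; rw [h, mul_zero]
      · right; rw [h, mul_zero]
    · rw [Pi.smul_apply, smul_eq_mul, h3, mul_zero]
  exact (hs.isPathConnected (AA_zero i)).isConnected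

def PP (i : Fin 3) : Set ((Fin 3 → ℝ) × (Fin 3 → ℝ)) := {tip i} ×ˢ AA i
def QQ (i : Fin 3) : Set ((Fin 3 → ℝ) × (Fin 3 → ℝ)) := AA i ×ˢ {tip i}

theorem PP_conn (i : Fin 3) : IsConnected (PP i) := isConnected_singleton.prod (AA_conn i)
theorem QQ_conn (i : Fin 3) : IsConnected (QQ i) := (AA_conn i).prod isConnected_singleton
theorem PP_comp (i : Fin 3) : IsCompact (PP i) := isCompact_singleton.prod (AA_compact i)
theorem QQ_comp (i : Fin 3) : IsCompact (QQ i) := (AA_compact i).prod isCompact_singleton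

theorem mem_PP {i j : Fin 3} (h : i ≠ j) : (tip i, tip j) ∈ PP i := ⟨rfl, tip_AA h.symm⟩
theorem mem_QQ {i j : Fin 3} (h : i ≠ j) : (tip i, tip j) ∈ QQ j := ⟨tip_AA h, rfl⟩

def HH : Set ((Fin 3 → ℝ) × (Fin 3 → ℝ)) := ((((PP 0 ∪ QQ 1) ∪ PP 2) ∪ QQ 0) ∪ PP 1) ∪ QQ 2

theorem HH_comp : IsCompact HH :=
  (((((PP_comp 0).union (QQ_comp 1)).union (PP_comp 2)).union (QQ_comp 0)).union (PP_comp 1)).union (QQ_comp 2)

theorem HH_conn : IsConnected HH := by
  unfold HH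
  have h1 : IsConnected (PP 0 ∪ QQ 1) :=
    IsConnected.union ⟨(tip 0, tip 1), mem_PP (by decide), mem_QQ (by decide)⟩ (PP_conn 0) (QQ_conn 1)
  have h2 : IsConnected ((PP 0 ∪ QQ 1) ∪ PP 2) :=
    IsConnected.union ⟨(tip 2, tip 1), Or.inr (mem_QQ (by decide)), mem_PP (by decide)⟩ h1 (PP_conn 2)
  have h3 : IsConnected (((PP 0 ∪ QQ 1) ∪ PP 2) ∪ QQ 0) :=
    IsConnected.union ⟨(tip 2, tip 0), Or.inr (mem_PP (by decide)), mem_QQ (by decide)⟩ h2 (QQ_conn 0)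
  have h4 : IsConnected ((((PP 0 ∪ QQ 1) ∪ PP 2) ∪ QQ 0) ∪ PP 1) :=
    IsConnected.union ⟨(tip 1, tip 0), Or.inr (mem_QQ (by decide)), mem_PP (by decide)⟩ h3 (PP_conn 1)
  exact IsConnected.union ⟨(tip 1, tip 2), Or.inr (mem_PP (by decide)), mem_QQ (by decide)⟩ h4 (QQ_conn 2)

theorem swap_PP (i : Fin 3) : Prod.swap '' PP i = QQ i := Set.image_swap_prod _ _
theorem swap_QQ (i : Fin 3) : Prod.swap '' QQ i = PP i := Set.image_swap_prod _ _

theorem swap_HH : Prod.swap '' HH = HH := by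
  unfold HH
  simp only [Set.image_union, swap_PP, swap_QQ]
  ext z
  simp only [Set.mem_union]
  tauto

theorem HH_sub : HH ⊆ T3 ×ˢ T3 := by
  have hp : ∀ i, PP i ⊆ T3 ×ˢ T3 := by
    rintro i ⟨x, y⟩ ⟨hx, hy⟩
    have hx' : x = tip i := hx
    subst hx'
    exact ⟨tip_mem i, hy.1⟩
  have hq : ∀ i, QQ i ⊆ T3 ×ˢ T3 := by
    rintro i ⟨x, y⟩ ⟨hx, hy⟩
    have hy' : y = tip i := hy
    subst hy'
    exact ⟨hx.1, tip_mem i⟩
  unfold HH
  exact Set.union_subset (Set.union_subset (Set.union_subset (Set.union_subset (Set.union_subset (hp 0) (hq 1)) (hp 2)) (hq 0)) (hp 1)) (hq 2)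

theorem HH_ne : ∀ z ∈ HH, z.1 ≠ z.2 := by
  have hp : ∀ i, ∀ z ∈ PP i, z.1 ≠ z.2 := by
    rintro i ⟨x, y⟩ ⟨hx, hy⟩ h
    have hx' : x = tip i := hx
    have h' : x = y := h
    have h0 : y i = 0 := hy.2
    rw [← h', hx', tip_self] at h0
    norm_num at h0
  have hq : ∀ i, ∀ z ∈ QQ i, z.1 ≠ z.2 := by
    rintro i ⟨x, y⟩ ⟨hx, hy⟩ h
    have hy' : y = tip i := hy
    have h' : x = y := h
    have h0 : x i = 0 := hx.2
    rw [h', hy', tip_self] at h0
    norm_num at h0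
  intro z hz
  unfold HH at hz
  rcases hz with ((((hz | hz) | hz) | hz) | hz) | hz
  · exact hp 0 z hz
  · exact hq 1 z hz
  · exact hp 2 z hz
  · exact hq 0 z hz
  · exact hp 1 z hz
  · exact hq 2 z hz

theorem sym_pos (e : (Fin 3 → ℝ) → ℂ) (he : ContinuousOn e T3) (hinj : InjOn e T3) :
    0 < symSpan (e '' T3) := by
  have hmc : ContinuousOn (Prod.map e e) HH := (he.prodMap he).mono HH_sub
  set Z : Set (ℂ × ℂ) := Prod.map e e '' HH with hZ
  have hZc : IsCompact Z := HH_comp.image_of_continuousOn hmc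
  have hZconn : IsConnected Z := HH_conn.image _ hmc
  have hZsub : Z ⊆ (e '' T3) ×ˢ (e '' T3) := by
    rintro _ ⟨⟨x, y⟩, hxy, rfl⟩
    obtain ⟨h1, h2⟩ := HH_sub hxy
    exact ⟨⟨x, h1, rfl⟩, ⟨y, h2, rfl⟩⟩
  have hZswap : Prod.swap '' Z = Z := by
    rw [hZ, Set.image_image]
    have : (fun x : (Fin 3 → ℝ) × (Fin 3 → ℝ) => Prod.swap (Prod.map e e x))
        = fun x => Prod.map e e (Prod.swap x) := by
      funext x; rfl
    rw [this, ← Set.image_image, swap_HH]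
  have hdc : Continuous (fun z : ℂ × ℂ => dist z.1 z.2) := continuous_fst.dist continuous_snd
  have hIc : IsCompact ((fun z : ℂ × ℂ => dist z.1 z.2) '' Z) := hZc.image hdc
  have hIne : ((fun z : ℂ × ℂ => dist z.1 z.2) '' Z).Nonempty := hZconn.nonempty.image _
  have hpos : 0 < sInf ((fun z : ℂ × ℂ => dist z.1 z.2) '' Z) := by
    obtain ⟨z, ⟨⟨x, y⟩, hxy, rfl⟩, hz⟩ := hIc.sInf_mem hIne
    rw [← hz]
    obtain ⟨h1, h2⟩ := HH_sub hxy
    have hne : x ≠ y := HH_ne _ hxy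
    have : e x ≠ e y := fun h => hne (hinj h1 h2 h)
    exact dist_pos.mpr this
  have hmem : sInf ((fun z : ℂ × ℂ => dist z.1 z.2) '' Z) ∈ symSet (e '' T3) :=
    ⟨Z, hZc, hZconn, hZsub, hZswap, rfl⟩
  have hXc : IsCompact (e '' T3) := T3_compact.image_of_continuousOn he
  have hbdd : BddAbove (symSet (e '' T3)) := by
    refine ⟨Metric.diam (e '' T3), ?_⟩
    rintro c ⟨W, _, hWconn, hWsub, _, rfl⟩
    obtain ⟨z, hz⟩ := hWconn.nonempty
    have hb : BddBelow ((fun z : ℂ × ℂ => dist z.1 z.2) '' W) := by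
      refine ⟨0, ?_⟩
      rintro _ ⟨w, _, rfl⟩
      exact dist_nonneg
    have hm : dist z.1 z.2 ∈ ((fun z : ℂ × ℂ => dist z.1 z.2) '' W) := ⟨z, hz, rfl⟩
    refine (csInf_le hb hm).trans ?_
    obtain ⟨h1, h2⟩ := hWsub hz
    exact Metric.dist_le_diam_of_mem hXc.isBounded h1 h2
  exact hpos.trans_le (le_csSup hbdd hmem)




theorem straight (e : (Fin 3 → ℝ) → ℂ) (a : ℝ) (ha : 0 < a) (ha1 : a ≤ 1) (u : Fin 3 → ℂ)
    (hu : ∀ (i : Fin 3), ∀ t ∈ Icc (0:ℝ) a, e (Pi.single i t) = e 0 + (t:ℂ) * u i)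
    (i : Fin 3) (r : ℝ) :
    IsPreconnected {t : ℝ | t ∈ Icc (0:ℝ) 1 ∧
      r ≤ dist ((fun p : Fin 3 → ℝ => e (a • p)) (Pi.single i t))
        ((fun p : Fin 3 → ℝ => e (a • p)) 0)} := by
  have key : ∀ t ∈ Icc (0:ℝ) 1, dist ((fun p : Fin 3 → ℝ => e (a • p)) (Pi.single i t))
        ((fun p : Fin 3 → ℝ => e (a • p)) 0) = a * t * ‖u i‖ := by
    intro t ht
    have h1 : a • (Pi.single i t : Fin 3 → ℝ) = Pi.single i (a * t) := by
      rw [← smul_eq_mul, Pi.single_smul]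
    have h2 : a * t ∈ Icc (0:ℝ) a :=
      ⟨mul_nonneg ha.le ht.1, by nlinarith [ht.2]⟩
    simp only [smul_zero]
    rw [h1, hu i (a * t) h2, dist_eq_norm, add_sub_cancel_left, norm_mul, Complex.norm_real,
      Real.norm_eq_abs, abs_of_nonneg h2.1]
  apply Set.OrdConnected.isPreconnected
  constructor
  intro x hx y hy z hz
  have hz01 : z ∈ Icc (0:ℝ) 1 := ⟨hx.1.1.trans hz.1, hz.2.trans hy.1.2⟩
  refine ⟨hz01, ?_⟩
  rw [key z hz01]
  have h3 := hx.2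
  rw [key x hx.1] at h3
  refine h3.trans ?_
  exact mul_le_mul_of_nonneg_right (mul_le_mul_of_nonneg_left hz.1 ha.le) (norm_nonneg _)



end Pool.Agent.Helper787.Triod
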