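import Pool.Agent.Helper787.Triod.Final
set_option autoImplicit false

namespace Pool.Agent.Helper787.Triod

open Set Topology


theorem mkTriod_single_aux (p : Fin 3 → ℝ) (hp : p ∈ T3) : ∃ i, p = Pi.single i (p i) := by
  by_cases h : ∃ i, p i ≠ 0
  · obtain ⟨i, hi⟩ := h
    refine ⟨i, ?_⟩
    funext j
    by_cases hj : j = i
    · subst hj; simp
    · rw [Pi.single_eq_of_ne hj]
      rcases hp.2 j i hj with h1 | h1
      · exact h1
      · exact absurd h1 hi
  · refine ⟨0, ?_⟩
    have h0 : ∀ i, p i = 0 := by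
      intro i
      by_contra hi
      exact h ⟨i, hi⟩
    funext j
    rw [h0 j, h0 0]
    simp

theorem mkTriod (g : Fin 3 → ℝ → ℂ) (o : ℂ) (hg : ∀ i, ContinuousOn (g i) (Icc 0 1))
    (h0 : ∀ i, g i 0 = o) (hinj : ∀ i, InjOn (g i) (Icc 0 1))
    (hdis : ∀ i j, i ≠ j → ∀ s ∈ Icc (0:ℝ) 1, ∀ t ∈ Icc (0:ℝ) 1, g i s = g j t → s = 0 ∧ t = 0) :
    ∃ e : (Fin 3 → ℝ) → ℂ, ContinuousOn e T3 ∧ InjOn e T3 ∧
      ∀ i, ∀ t ∈ Icc (0:ℝ) 1, e (Pi.single i t) = g i t := by
  have hsing : ∀ i (t : ℝ), o + ∑ j, (g j ((Pi.single i t : Fin 3 → ℝ) j) - o) = g i t := by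
    intro i t
    rw [Finset.sum_eq_single i]
    · rw [Pi.single_eq_same]; ring
    · intro j _ hj
      rw [Pi.single_eq_of_ne hj, h0 j, sub_self]
    · intro h; exact absurd (Finset.mem_univ i) h
  refine ⟨fun p => o + ∑ i, (g i (p i) - o), ?_, ?_, fun i t _ => hsing i t⟩
  · apply ContinuousOn.add continuousOn_const
    apply continuousOn_finset_sum
    intro i _
    apply ContinuousOn.sub _ continuousOn_const
    exact (hg i).comp (continuous_apply i).continuousOn (fun p hp => ⟨(hp.1 i).1, (hp.1 i).2⟩)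
  · intro p hp q hq hpq
    obtain ⟨i, hi⟩ := mkTriod_single_aux p hp
    obtain ⟨j, hj⟩ := mkTriod_single_aux q hq
    have e1 : o + ∑ k, (g k (p k) - o) = g i (p i) := by
      have := hsing i (p i)
      rw [← hi] at this
      exact this
    have e2 : o + ∑ k, (g k (q k) - o) = g j (q j) := by
      have := hsing j (q j)
      rw [← hj] at this
      exact this
    have e3 : g i (p i) = g j (q j) := by
      rw [← e1, ← e2]; exact hpq
    have hpi : p i ∈ Icc (0:ℝ) 1 := ⟨(hp.1 i).1, (hp.1 i).2⟩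
    have hqj : q j ∈ Icc (0:ℝ) 1 := ⟨(hq.1 j).1, (hq.1 j).2⟩
    by_cases hij : i = j
    · subst hij
      have := hinj i hpi hqj e3
      rw [hi, hj, this]
    · obtain ⟨h1, h2⟩ := hdis i j hij (p i) hpi (q j) hqj e3
      rw [hi, hj, h1, h2]
      simp




theorem last_exit (g : ℝ → ℂ) (hg : ContinuousOn g (Icc 0 1)) (hinj : InjOn g (Icc 0 1))
    (η : ℝ) (hη : 0 < η) :
    ∃ d0 > 0, ∀ d, 0 < d → d ≤ d0 → ∃ t, 0 < t ∧ t < 1 ∧ dist (g t) (g 0) = d ∧
      (∀ s, t < s → s ≤ 1 → d < dist (g s) (g 0)) ∧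
      (∀ s, 0 ≤ s → s ≤ t → dist (g s) (g 0) ≤ η) := by
  set rho : ℝ → ℝ := fun s => dist (g s) (g 0) with hrho
  have hr : ContinuousOn rho (Icc 0 1) := fun s hs => Filter.Tendsto.dist (hg s hs) tendsto_const_nhds
  have hr0 : rho 0 = 0 := dist_self _
  obtain ⟨δ, hδ, hδ'⟩ := Metric.continuousOn_iff.1 hr 0 (left_mem_Icc.2 zero_le_one) η hη
  set τ : ℝ := min (δ / 2) (1 / 2) with hτ
  have hτ0 : 0 < τ := lt_min (by linarith) (by norm_num)
  have hτ1 : τ < 1 := lt_of_le_of_lt (min_le_right _ _) (by norm_num)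
  have hτδ : τ < δ := lt_of_le_of_lt (min_le_left _ _) (by linarith)
  have hsmall : ∀ s, 0 ≤ s → s ≤ τ → rho s ≤ η := by
    intro s hs0 hs1
    have h := hδ' s ⟨hs0, by linarith⟩ (by
      rw [Real.dist_eq, sub_zero, abs_of_nonneg hs0]; linarith)
    rw [hr0, Real.dist_eq, sub_zero] at h
    exact (le_abs_self _).trans h.le
  obtain ⟨s0, hs0, hmin⟩ := (isCompact_Icc : IsCompact (Icc τ 1)).exists_isMinOn
    ⟨τ, left_mem_Icc.2 hτ1.le⟩ (hr.mono (Icc_subset_Icc_left hτ0.le))
  have hm : 0 < rho s0 := by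
    refine dist_pos.2 fun h => ?_
    have := hinj ⟨by linarith [hs0.1], hs0.2⟩ (left_mem_Icc.2 zero_le_one) h
    linarith [hs0.1]
  refine ⟨rho s0 / 2, by linarith, fun d hd hd0 => ?_⟩
  set A : Set ℝ := Icc 0 1 ∩ rho ⁻¹' (Iic d) with hA
  have hAc : IsClosed A := hr.preimage_isClosed_of_isClosed isClosed_Icc isClosed_Iic
  have hAn : A.Nonempty := ⟨0, left_mem_Icc.2 zero_le_one, by
    show rho 0 ≤ d
    rw [hr0]; exact hd.le⟩
  have hAb : BddAbove A := ⟨1, fun s hs => hs.1.2⟩
  have htA : sSup A ∈ A := hAc.csSup_mem hAn hAb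
  set t := sSup A with ht
  have ht1 : rho t ≤ d := htA.2
  have htτ : t < τ := by
    by_contra h
    push Not at h
    have h2 : rho s0 ≤ rho t := hmin (⟨h, htA.1.2⟩ : t ∈ Icc τ 1)
    linarith
  have hgt : ∀ s, t < s → s ≤ 1 → d < rho s := by
    intro s hs hs1
    by_contra h
    push Not at h
    have : s ∈ A := ⟨⟨htA.1.1.trans hs.le, hs1⟩, h⟩
    exact absurd (le_csSup hAb this) (not_le.2 hs)
  have hteq : rho t = d := by
    by_contra hne
    have hlt : rho t < d := lt_of_le_of_ne ht1 hne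
    obtain ⟨ε, hε, hε'⟩ := Metric.continuousOn_iff.1 hr t htA.1 (d - rho t) (by linarith)
    set s := min (t + ε / 2) 1 with hs
    have hst : t < s := lt_min (by linarith) (by linarith)
    have hs1 : s ≤ 1 := min_le_right _ _
    have hsε : s ≤ t + ε / 2 := min_le_left _ _
    have h := hε' s ⟨htA.1.1.trans hst.le, hs1⟩ (by
      rw [Real.dist_eq, abs_of_pos (by linarith)]; linarith)
    rw [Real.dist_eq] at h
    have h2 := (abs_lt.1 h).2
    have h3 := hgt s hst hs1
    linarith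
  have htpos : 0 < t := by
    rcases lt_or_eq_of_le htA.1.1 with h | h
    · exact h
    · exfalso
      rw [← h, hr0] at hteq
      linarith
  exact ⟨t, htpos, by linarith, hteq, hgt, fun s hs0 hst => hsmall s hs0 (by linarith)⟩




theorem T3_single {p : Fin 3 → ℝ} (hp : p ∈ T3) :
    ∃ i : Fin 3, ∃ t ∈ Icc (0:ℝ) 1, p = Pi.single i t := by
  obtain ⟨h1, h2⟩ := hp
  by_cases h : p = 0
  · exact ⟨0, 0, by simp, by rw [h, Pi.single_zero]⟩
  · obtain ⟨i, hi⟩ := Function.ne_iff.1 h
    refine ⟨i, p i, h1 i, ?_⟩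
    ext j
    by_cases hj : j = i
    · subst hj
      rw [Pi.single_eq_same]
    · rw [Pi.single_eq_of_ne hj]
      rcases h2 j i hj with h3 | h3
      · exact h3
      · exact absurd h3 hi

theorem straighten (e : (Fin 3 → ℝ) → ℂ) (he : ContinuousOn e T3) (hinj : InjOn e T3)
    (η : ℝ) (hη : 0 < η) :
    ∃ (e1 e2 : (Fin 3 → ℝ) → ℂ) (a : ℝ) (u : Fin 3 → ℂ),
      ContinuousOn e1 T3 ∧ InjOn e1 T3 ∧ e1 '' T3 = e '' T3 ∧
      ContinuousOn e2 T3 ∧ InjOn e2 T3 ∧ 0 < a ∧ a ≤ 1 ∧
      (∀ (i : Fin 3), ∀ t ∈ Icc (0:ℝ) a, e2 (Pi.single i t) = e2 0 + (t:ℂ) * u i) ∧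
      ∀ p ∈ T3, dist (e1 p) (e2 p) ≤ η := by
  classical
  obtain ⟨g, hgdef⟩ : ∃ g : Fin 3 → ℝ → ℂ, g = fun i t => e (Pi.single i t) := ⟨_, rfl⟩
  have hgv : ∀ i t, g i t = e (Pi.single i t) := by
    intro i t
    rw [hgdef]
  obtain ⟨o, ho⟩ : ∃ o : ℂ, o = e 0 := ⟨_, rfl⟩
  have hg0 : ∀ i, g i 0 = o := by
    intro i
    rw [hgv, Pi.single_zero, ho]
  have hgc : ∀ i, ContinuousOn (g i) (Icc 0 1) := by
    intro i
    have h1 : g i = e ∘ (fun t : ℝ => (Pi.single i t : Fin 3 → ℝ)) := by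
      funext t
      exact hgv i t
    rw [h1]
    have hcs : Continuous (fun t : ℝ => (Pi.single i t : Fin 3 → ℝ)) := by
      refine continuous_pi fun j => ?_
      by_cases hj : j = i
      · subst hj
        simp only [Pi.single_eq_same]
        exact continuous_id
      · simp only [Pi.single_eq_of_ne hj]
        exact continuous_const
    exact he.comp hcs.continuousOn (fun t ht => single_mem_T3 i ht)
  have hginj : ∀ i, InjOn (g i) (Icc 0 1) := by
    intro i s hs t ht h
    rw [hgv, hgv] at h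
    have h1 := hinj (single_mem_T3 i hs) (single_mem_T3 i ht) h
    have h2 := congrFun h1 i
    rwa [Pi.single_eq_same, Pi.single_eq_same] at h2
  have hgdis : ∀ i j, i ≠ j → ∀ s ∈ Icc (0:ℝ) 1, ∀ t ∈ Icc (0:ℝ) 1, g i s = g j t →
      s = 0 ∧ t = 0 := by
    intro i j hij s hs t ht h
    rw [hgv, hgv] at h
    have h1 := hinj (single_mem_T3 i hs) (single_mem_T3 j ht) h
    have h2 := congrFun h1 i
    have h3 := congrFun h1 j
    rw [Pi.single_eq_same, Pi.single_eq_of_ne hij] at h2
    rw [Pi.single_eq_same, Pi.single_eq_of_ne hij.symm] at h3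
    exact ⟨h2, h3.symm⟩
  choose d0 hd0 hprop using fun i => last_exit (g i) (hgc i) (hginj i) (η/2) (by linarith)
  obtain ⟨d, hd, hdi, hdη⟩ : ∃ d : ℝ, 0 < d ∧ (∀ i, d ≤ d0 i) ∧ d ≤ η/2 := by
    refine ⟨min (min (d0 0) (d0 1)) (min (d0 2) (η/2)), ?_, ?_, ?_⟩
    · exact lt_min (lt_min (hd0 0) (hd0 1)) (lt_min (hd0 2) (by linarith))
    · intro i
      fin_cases i
      · exact (min_le_left _ _).trans (min_le_left _ _)
      · exact (min_le_left _ _).trans (min_le_right _ _)
      · exact (min_le_right _ _).trans (min_le_left _ _)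
    · exact (min_le_right _ _).trans (min_le_right _ _)
  choose t ht0 ht1 htd htgt htle using fun i => hprop i d hd (hdi i)
  simp only [hg0] at htd htgt htle
  obtain ⟨sg, hsg⟩ : ∃ sg : Fin 3 → ℝ → ℝ, ∀ i s,
      sg i s = min (2*s) 1 * t i + max (2*s-1) 0 * (1 - t i) :=
    ⟨fun i s => min (2*s) 1 * t i + max (2*s-1) 0 * (1 - t i), fun i s => rfl⟩
  have hsgL : ∀ i s, s ≤ 1/2 → sg i s = 2*s*t i := by
    intro i s hs
    rw [hsg, min_eq_left (by linarith), max_eq_right (by linarith)]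
    ring
  have hsgR : ∀ i s, 1/2 ≤ s → sg i s = t i + (2*s-1)*(1 - t i) := by
    intro i s hs
    rw [hsg, min_eq_right (by linarith), max_eq_left (by linarith)]
    ring
  have hsgc : ∀ i, Continuous (sg i) := by
    intro i
    have h1 : sg i = fun s => min (2*s) 1 * t i + max (2*s-1) 0 * (1 - t i) := by
      funext s
      exact hsg i s
    rw [h1]
    fun_prop
  have hsg0 : ∀ i, sg i 0 = 0 := by
    intro i
    rw [hsgL i 0 (by norm_num)]
    ring
  have hsg1 : ∀ i, sg i 1 = 1 := by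
    intro i
    rw [hsgR i 1 (by norm_num)]
    ring
  have hsgm : ∀ i, StrictMono (sg i) := by
    intro i s s' h
    have a1 := ht0 i
    have a2 := ht1 i
    rcases le_total s (1/2) with h1 | h1 <;> rcases le_total s' (1/2) with h2 | h2
    · rw [hsgL i s h1, hsgL i s' h2]
      nlinarith
    · rw [hsgL i s h1, hsgR i s' h2]
      rcases eq_or_lt_of_le h1 with h3 | h3
      · subst h3
        have h4 : 0 < (2*s'-1)*(1 - t i) := by
          apply mul_pos <;> linarith
        linarith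
      · have h4 : 0 ≤ (2*s'-1)*(1 - t i) := by
          apply mul_nonneg <;> linarith
        nlinarith
    · exfalso
      linarith
    · rw [hsgR i s h1, hsgR i s' h2]
      nlinarith
  have hsgI : ∀ i, ∀ s ∈ Icc (0:ℝ) 1, sg i s ∈ Icc (0:ℝ) 1 := by
    intro i s hs
    constructor
    · rw [← hsg0 i]
      exact (hsgm i).monotone hs.1
    · rw [← hsg1 i]
      exact (hsgm i).monotone hs.2
  have hsgz : ∀ i s, sg i s = 0 → s = 0 := by
    intro i s h
    exact (hsgm i).injective (h.trans (hsg0 i).symm)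
  -- first triod
  obtain ⟨e1, he1c, he1i, he1v⟩ := mkTriod (fun i s => g i (sg i s)) o
    (fun i => (hgc i).comp (hsgc i).continuousOn (fun s hs => hsgI i s hs))
    (fun i => by
      show g i (sg i 0) = o
      rw [hsg0, hg0])
    (fun i s hs s' hs' h => (hsgm i).injective (hginj i (hsgI i s hs) (hsgI i s' hs') h))
    (fun i j hij s hs s' hs' h => by
      obtain ⟨h1, h2⟩ := hgdis i j hij _ (hsgI i s hs) _ (hsgI j s' hs') h
      exact ⟨hsgz i s h1, hsgz j s' h2⟩)
  -- second triod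
  obtain ⟨ta, hta⟩ : ∃ ta : Fin 3 → ℝ → ℝ, ∀ i s, ta i s = t i + max (2*s-1) 0 * (1 - t i) :=
    ⟨fun i s => t i + max (2*s-1) 0 * (1 - t i), fun i s => rfl⟩
  have htac : ∀ i, Continuous (ta i) := by
    intro i
    have h1 : ta i = fun s => t i + max (2*s-1) 0 * (1 - t i) := by
      funext s
      exact hta i s
    rw [h1]
    fun_prop
  have htaI : ∀ i, ∀ s ∈ Icc (0:ℝ) 1, ta i s ∈ Icc (0:ℝ) 1 := by
    intro i s hs
    have a1 := ht0 i
    have a2 := ht1 i
    have b1 : 0 ≤ max (2*s-1) 0 := le_max_right _ _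
    have b2 : max (2*s-1) 0 ≤ 1 := max_le (by linarith [hs.2]) (by norm_num)
    rw [hta]
    constructor
    · nlinarith
    · nlinarith
  obtain ⟨G2, hG2⟩ : ∃ G2 : Fin 3 → ℝ → ℂ, ∀ i s, G2 i s =
      o + ((min (2*s) 1 : ℝ) : ℂ) * (g i (t i) - o) + (g i (ta i s) - g i (t i)) :=
    ⟨fun i s => o + ((min (2*s) 1 : ℝ) : ℂ) * (g i (t i) - o) + (g i (ta i s) - g i (t i)),
      fun i s => rfl⟩
  have hG2L : ∀ i s, s ≤ 1/2 → G2 i s = o + ((2*s : ℝ):ℂ) * (g i (t i) - o) := by
    intro i s hs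
    have h1 : ta i s = t i := by
      rw [hta, max_eq_right (by linarith)]
      ring
    rw [hG2, h1, min_eq_left (by linarith)]
    ring
  have hG2R : ∀ i s, 1/2 ≤ s → G2 i s = g i (sg i s) := by
    intro i s hs
    have h1 : ta i s = sg i s := by
      rw [hta, hsgR i s hs, max_eq_left (by linarith)]
    rw [hG2, h1, min_eq_right (by linarith)]
    push_cast
    ring
  have hdL : ∀ i s, 0 ≤ s → s ≤ 1/2 → dist (G2 i s) o = 2*s*d := by
    intro i s h0 h1
    have h2 := htd i
    rw [dist_eq_norm] at h2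
    rw [hG2L i s h1, dist_eq_norm, add_sub_cancel_left, norm_mul, h2, Complex.norm_real,
      Real.norm_eq_abs, abs_of_nonneg (by linarith)]
  have hdR : ∀ i s, 1/2 < s → s ≤ 1 → d < dist (G2 i s) o := by
    intro i s h0 h1
    rw [hG2R i s h0.le]
    apply htgt i (sg i s)
    · rw [hsgR i s h0.le]
      have a2 := ht1 i
      have : 0 < (2*s-1)*(1 - t i) := by
        apply mul_pos <;> linarith
      linarith
    · exact (hsgI i s ⟨by linarith, h1⟩).2
  have hG2c : ∀ i, ContinuousOn (G2 i) (Icc 0 1) := by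
    intro i
    have h1 : G2 i = fun s => o + ((min (2*s) 1 : ℝ) : ℂ) * (g i (t i) - o) +
        (g i (ta i s) - g i (t i)) := by
      funext s
      exact hG2 i s
    rw [h1]
    have h2 : ContinuousOn (fun s => g i (ta i s)) (Icc 0 1) :=
      (hgc i).comp (htac i).continuousOn (fun s hs => htaI i s hs)
    have h3 : Continuous (fun s : ℝ => o + ((min (2*s) 1 : ℝ) : ℂ) * (g i (t i) - o)) := by
      have h4 : Continuous (fun s : ℝ => ((min (2*s) 1 : ℝ) : ℂ)) :=
        Complex.continuous_ofReal.comp (by fun_prop)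
      fun_prop
    exact h3.continuousOn.add (h2.sub continuousOn_const)
  have hG20 : ∀ i, G2 i 0 = o := by
    intro i
    rw [hG2L i 0 (by norm_num)]
    simp
  obtain ⟨e2, he2c, he2i, he2v⟩ := mkTriod G2 o hG2c hG20
    (fun i s hs s' hs' h => by
      rcases le_or_gt s (1/2) with h1 | h1 <;> rcases le_or_gt s' (1/2) with h2 | h2
      · have e1 := hdL i s hs.1 h1
        have e2 := hdL i s' hs'.1 h2
        rw [h, e2] at e1
        have : s' * d = s * d := by linarith
        exact (mul_right_cancel₀ hd.ne' this).symm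
      · exfalso
        have e1 := hdL i s hs.1 h1
        have e2 := hdR i s' h2 hs'.2
        rw [← h, e1] at e2
        nlinarith
      · exfalso
        have e1 := hdL i s' hs'.1 h2
        have e2 := hdR i s h1 hs.2
        rw [h, e1] at e2
        nlinarith
      · rw [hG2R i s h1.le, hG2R i s' h2.le] at h
        exact (hsgm i).injective (hginj i (hsgI i s hs) (hsgI i s' hs') h))
    (fun i j hij s hs s' hs' h => by
      rcases le_or_gt s (1/2) with h1 | h1 <;> rcases le_or_gt s' (1/2) with h2 | h2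
      · have e1 := hdL i s hs.1 h1
        have e2 := hdL j s' hs'.1 h2
        rw [h, e2] at e1
        have e3 : s' * d = s * d := by linarith
        have e4 : s' = s := mul_right_cancel₀ hd.ne' e3
        subst e4
        by_cases hz : s' = 0
        · exact ⟨hz, hz⟩
        · exfalso
          rw [hG2L i s' h1, hG2L j s' h1] at h
          have h5 : ((2*s' : ℝ):ℂ) ≠ 0 := by
            exact_mod_cast (mul_ne_zero two_ne_zero hz)
          have h6 : ((2*s' : ℝ):ℂ) * (g i (t i) - o) = ((2*s' : ℝ):ℂ) * (g j (t j) - o) :=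
            add_left_cancel h
          have h7 := mul_left_cancel₀ h5 h6
          have h8 : g i (t i) = g j (t j) := by
            have := congrArg (fun z => z + o) h7
            simpa using this
          have h9 := (hgdis i j hij _ ⟨(ht0 i).le, (ht1 i).le⟩ _ ⟨(ht0 j).le, (ht1 j).le⟩ h8).1
          linarith [ht0 i]
      · exfalso
        have e1 := hdL i s hs.1 h1
        have e2 := hdR j s' h2 hs'.2
        rw [← h, e1] at e2
        nlinarith
      · exfalso
        have e1 := hdL j s' hs'.1 h2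
        have e2 := hdR i s h1 hs.2
        rw [h, e1] at e2
        nlinarith
      · exfalso
        rw [hG2R i s h1.le, hG2R j s' h2.le] at h
        have h9 := (hgdis i j hij _ (hsgI i s hs) _ (hsgI j s' hs') h).1
        have := hsgz i s h9
        linarith)
  refine ⟨e1, e2, 1/2, fun i => 2 * (g i (t i) - o), he1c, he1i, ?_, he2c, he2i, by norm_num,
    by norm_num, ?_, ?_⟩
  · ext z
    constructor
    · rintro ⟨p, hp, rfl⟩
      obtain ⟨i, s, hs, rfl⟩ := T3_single hp
      refine ⟨Pi.single i (sg i s), single_mem_T3 i (hsgI i s hs), ?_⟩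
      rw [he1v i s hs, hgv]
    · rintro ⟨p, hp, rfl⟩
      obtain ⟨i, s, hs, rfl⟩ := T3_single hp
      have h1 : s ∈ sg i '' Icc (0:ℝ) 1 := by
        apply intermediate_value_Icc (by norm_num : (0:ℝ) ≤ 1) (hsgc i).continuousOn
        rw [hsg0, hsg1]
        exact hs
      obtain ⟨s', hs', rfl⟩ := h1
      refine ⟨Pi.single i s', single_mem_T3 i hs', ?_⟩
      rw [he1v i s' hs', hgv]
  · intro i s hs
    have h1 : e2 0 = o := by
      have := he2v i 0 ⟨le_rfl, by norm_num⟩
      rw [Pi.single_zero, hG20] at this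
      exact this
    rw [he2v i s ⟨hs.1, by linarith [hs.2]⟩, hG2L i s hs.2, h1]
    push_cast
    ring
  · intro p hp
    obtain ⟨i, s, hs, rfl⟩ := T3_single hp
    rw [he1v i s hs, he2v i s hs]
    rcases le_or_gt s (1/2) with h1 | h1
    · have a1 := ht0 i
      have h2 : dist (g i (sg i s)) o ≤ η/2 := by
        apply htle i (sg i s) (hsgI i s hs).1
        rw [hsgL i s h1]
        nlinarith [hs.1]
      have h3 : dist (G2 i s) o ≤ η/2 := by
        rw [hdL i s hs.1 h1]
        nlinarith [hs.1]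
      calc dist (g i (sg i s)) (G2 i s) ≤ dist (g i (sg i s)) o + dist o (G2 i s) :=
            dist_triangle _ _ _
        _ ≤ η/2 + η/2 := by
            rw [dist_comm o]
            exact add_le_add h2 h3
        _ = η := by ring
    · rw [hG2R i s h1.le, dist_self]
      exact hη.le



end Pool.Agent.Helper787.Triod
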