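import Pool.Agent.Helper787.Triod.Ivt
import Pool.Agent.Helper787.Triod.Parts3
set_option autoImplicit false

namespace Pool.Agent.Helper787.Triod

open Set Topology

theorem ratio_all (X : Set ℂ) (hX : IsSimpleTriod X) (t : ℝ)
    (ht : surjSpan X / span X ≤ t) (ht1 : t ≤ 1) :
    ∃ Y : Set ℂ, IsSimpleTriod Y ∧ surjSpan Y / span Y = t := by
  rcases ht.eq_or_lt with h | h
  · exact ⟨X, hX, h⟩
  · obtain ⟨e, he, hinj, rfl⟩ := hX
    obtain ⟨p1, p2, p3⟩ := pos_chain e he hinj
    have hS : 0 < span (e '' T3) := by linarith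
    have hlt : surjSpan (e '' T3) < t * span (e '' T3) := by
      rwa [div_lt_iff₀ hS] at h
    have ht0 : 0 < t := by
      by_contra hcon
      push Not at hcon
      nlinarith
    set η := (t * span (e '' T3) - surjSpan (e '' T3)) / 4 with hη
    have hηp : 0 < η := by rw [hη]; linarith
    obtain ⟨e1, e2, a, u, h1, h2, h3, h4, h5, h6, h7, h8, h9⟩ := straighten e he hinj η hηp
    have c1 := (span_close e1 e2 h1 h2 h4 h5 η h9).1
    have c2 := (span_close e2 e1 h4 h5 h1 h2 η (fun p hp => by rw [dist_comm]; exact h9 p hp)).2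
    rw [h3] at c1 c2
    obtain ⟨q1, q2, q3⟩ := pos_chain e2 h4 h5
    have hS2 : 0 < span (e2 '' T3) := by linarith
    have hle : surjSpan (e2 '' T3) / span (e2 '' T3) ≤ t := by
      rw [div_le_iff₀ hS2]
      have h10 : t * (2 * η) ≤ 2 * η := by nlinarith
      have h11 : t * span (e '' T3) ≤ t * span (e2 '' T3) + t * (2 * η) := by
        rw [← mul_add]
        exact mul_le_mul_of_nonneg_left c1 ht0.le
      have h12 : 4 * η = t * span (e '' T3) - surjSpan (e '' T3) := by rw [hη]; ring
      linarith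
    exact ivt_main e2 h4 h5 a h6 h7 u h8 t hle ht1

end Pool.Agent.Helper787.Triod
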